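import Pool.Agent.Work.MP_501976_ix.Interface

open Polynomial

namespace IX1

theorem CRD_fib {n c : ℕ} (wt : Fin (n + 3) → ℕ) (π : Fin (n + 3) → Fin c) :
    ∑ j : Fin c, dg wt π j = ∑ i ∈ Finset.univ.filter (fun i : Fin (n + 3) => i ≠ 0), wt i := by
  rw [← Finset.sum_fiberwise (Finset.univ.filter (fun i : Fin (n + 3) => i ≠ 0)) π wt]
  refine Finset.sum_congr rfl fun j _ => ?_
  unfold dg
  rw [Finset.filter_filter]

theorem CRD_split {n : ℕ} (wt : Fin (n + 3) → ℕ) (h1 : wt 1 = 1) (h2 : wt 2 = 1) :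
    ∑ i ∈ Finset.univ.filter (fun i : Fin (n + 3) => i ≠ 0), wt i =
      2 + ∑ i ∈ Finset.univ.filter (fun i : Fin (n + 3) => 3 ≤ i.val), wt i := by
  rw [Finset.sum_filter, Finset.sum_filter, Fin.sum_univ_succ, Fin.sum_univ_succ,
    Fin.sum_univ_succ, Fin.sum_univ_succ (n := n + 2), Fin.sum_univ_succ (n := n + 1),
    Fin.sum_univ_succ (n := n)]
  have e1 : (Fin.succ (0 : Fin (n + 2))) = 1 := rfl
  have e2 : (Fin.succ (Fin.succ (0 : Fin (n + 1)))) = 2 := rfl
  have e3 : ∀ i : Fin n, (3 : ℕ) ≤ (i.succ.succ.succ : Fin (n + 3)).val := by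
    intro i
    simp only [Fin.val_succ]
    omega
  have e4 : ∀ i : Fin n, (i.succ.succ.succ : Fin (n + 3)) ≠ 0 := fun i => Fin.succ_ne_zero _
  have e5 : (Fin.succ (0 : Fin (n + 2))) ≠ 0 := Fin.succ_ne_zero _
  have e6 : (Fin.succ (Fin.succ (0 : Fin (n + 1)))) ≠ 0 := Fin.succ_ne_zero _
  have e7 : ¬ (3 : ℕ) ≤ (Fin.succ (0 : Fin (n + 2))).val := by
    simp only [Fin.val_succ, Fin.val_zero]
    omega
  have e8 : ¬ (3 : ℕ) ≤ (Fin.succ (Fin.succ (0 : Fin (n + 1)))).val := by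
    simp only [Fin.val_succ, Fin.val_zero]
    omega
  have e9 : ¬ (3 : ℕ) ≤ (0 : Fin (n + 3)).val := by
    simp only [Fin.val_zero]
    omega
  rw [if_neg (by simp), if_pos e5, if_pos e6, if_neg e7, if_neg e8, if_neg e9, e1, e2, h1, h2]
  have f1 : ∑ i : Fin n, (if (i.succ.succ.succ : Fin (n + 3)) ≠ 0 then wt i.succ.succ.succ else 0) =
      ∑ i : Fin n, wt i.succ.succ.succ :=
    Finset.sum_congr rfl fun i _ => if_pos (e4 i)
  have f2 : ∑ i : Fin n, (if (3 : ℕ) ≤ (i.succ.succ.succ : Fin (n + 3)).val then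
      wt i.succ.succ.succ else 0) = ∑ i : Fin n, wt i.succ.succ.succ :=
    Finset.sum_congr rfl fun i _ => if_pos (e3 i)
  rw [f1, f2]
  omega

theorem p_CRD : Stmt_CRD := by
  intro n c wt π h1 h2
  have hV : Fintype.card (VV wt π) = 2 * ∑ j : Fin c, dg wt π j := by
    rw [Fintype.card_sigma, Finset.mul_sum]
    exact Finset.sum_congr rfl fun j _ => Fintype.card_fin _
  have hU : Fintype.card (UU wt) =
      4 + 2 * ∑ i ∈ Finset.univ.filter (fun i : Fin (n + 3) => 3 ≤ i.val), wt i := by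
    rw [Fintype.card_sum, Fintype.card_fin, Fintype.card_sigma, Finset.mul_sum]
    congr 1
    rw [Finset.sum_subtype (Finset.univ.filter (fun i : Fin (n + 3) => 3 ≤ i.val))
      (p := fun i : Fin (n + 3) => 3 ≤ i.val) (fun x => by simp)]
    exact Finset.sum_congr rfl fun i _ => Fintype.card_fin _
  rw [hV, hU, CRD_fib, CRD_split wt h1 h2]
  omega

end IX1
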