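import Pool.Agent.Work.MP_501976_ix.Interface

/-! Block CUR of `MP_501976_ix`. -/

universe u v

open Polynomial

namespace IX1

theorem CUR_map_G0 {A B : Type u} [CommRing A] [CommRing B] (φ : A →+* B) {n c : ℕ}
    (wt : Fin (n + 3) → ℕ) (π : Fin (n + 3) → Fin c) (j : Fin c) :
    MvPolynomial.map φ (G0 A wt π j) = G0 B wt π j := by
  unfold G0
  rw [map_add, map_sum]
  congr 1
  · refine Finset.sum_congr rfl fun i _ => ?_
    simp only [map_mul, map_pow, MvPolynomial.map_X]
  · split_ifs
    · simp only [map_mul, map_pow, map_sub, MvPolynomial.map_X]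
    · exact map_zero _

theorem CUR_map_hom {A B : Type u} [CommRing A] [CommRing B] (φ : A →+* B) {N : ℕ}
    (wt : Fin N → ℕ) (d : ℕ) (H : MvPolynomial (Fin N) A) (hH : H.IsWeightedHomogeneous wt d) :
    (MvPolynomial.map φ H).IsWeightedHomogeneous wt d := by
  intro e he
  apply hH
  intro h
  apply he
  rw [MvPolynomial.coeff_map, h, map_zero]

theorem p_CUR (hGHM : Stmt_GHM.{u}) (hVAL : Stmt_VAL.{u}) (hCVF : Stmt_CVF.{u})
    (hEXI : Stmt_EXI.{u}) (hSPC : Stmt_SPC.{u}) : Stmt_CUR.{u} := by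
  intro Ω _ _ n c wt π h0 h1 h2 hπ G hG hG0
  obtain ⟨F, iF, iA, iG, s, y, hs, heq⟩ := hEXI Ω n c wt π h0 h1 h2 hπ G hG hG0
  obtain ⟨O, hO, hsO, hs1⟩ := hVAL Ω F s hs
  let ρ : Ω →+* O := (algebraMap Ω F).codRestrict O hO
  let sO : O := ⟨s, hsO⟩
  have hres1 : IsLocalRing.residue O sO = 1 := by
    obtain ⟨h3, h4⟩ := ValuationSubring.mem_nonunits_iff_exists_mem_maximalIdeal.1 hs1
    have h5 : (⟨s - 1, h3⟩ : O) = sO - 1 := rfl
    rw [h5, ← IsLocalRing.residue_eq_zero_iff, map_sub, map_one, sub_eq_zero] at h4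
    exact h4
  let τ : Ω →+* IsLocalRing.ResidueField O := (IsLocalRing.residue O).comp ρ
  have : CharZero (IsLocalRing.ResidueField O) := charZero_of_injective_ringHom τ.injective
  let H : Fin c → MvPolynomial (Fin (n + 3)) O := fun j =>
    MvPolynomial.C (1 - sO) * G0 O wt π j + MvPolynomial.C sO * MvPolynomial.map ρ (G j)
  have hH : ∀ j, (H j).IsWeightedHomogeneous wt (dg wt π j) := by
    intro j
    have h3 := (MvPolynomial.isWeightedHomogeneous_C wt (1 - sO)).mul
      (hGHM O n c wt π h0 h1 h2 hπ j)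
    have h4 := (MvPolynomial.isWeightedHomogeneous_C wt sO).mul (CUR_map_hom ρ wt _ _ (hG j))
    rw [zero_add] at h3 h4
    exact h3.add h4
  have hHF : ∀ j, MvPolynomial.map (algebraMap O F) (H j) = pen wt π G s j := by
    intro j
    have h3 : (algebraMap O F).comp ρ = algebraMap Ω F := rfl
    have h4 : algebraMap O F (1 - sO) = 1 - s := rfl
    have h5 : algebraMap O F sO = s := rfl
    simp only [H, pen, map_add, map_mul, MvPolynomial.map_C, MvPolynomial.map_map, CUR_map_G0,
      h3, h4, h5]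
  have hHR : ∀ j, MvPolynomial.map (IsLocalRing.residue O) (H j) =
      MvPolynomial.map τ (G j) := by
    intro j
    have h4 : IsLocalRing.residue O (1 - sO) = 0 := by rw [map_sub, hres1, map_one, sub_self]
    simp only [H, map_add, map_mul, MvPolynomial.map_C, MvPolynomial.map_map, h4, hres1, map_zero,
      map_one, zero_mul, one_mul, zero_add, τ]
  obtain ⟨hcd, hc0, hc1, -⟩ := hCVF F F n wt y h0 h1 h2
  have hf0 : cv wt y 0 = 1 + C (y (Sum.inl 0)) * X ^ 2 := by
    unfold cv
    rw [if_pos rfl]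
  have h10 : (1 : Fin (n + 3)) ≠ 0 := by
    intro h
    have := congrArg Fin.val h
    simp at this
  have hf1 : cv wt y 1 ≠ 0 := by
    intro h
    have h3 : (cv wt y 1).coeff 1 = 1 := by
      unfold cv
      rw [if_neg h10, if_pos rfl]
      simp [Polynomial.coeff_X_pow]
    rw [h, Polynomial.coeff_zero] at h3
    exact zero_ne_one h3
  obtain ⟨g, hgd, hg0, hg1, hg2, hg3⟩ := hSPC F O (n + 2) wt h0 c H (dg wt π) hH (cv wt y)
    (y (Sum.inl 0)) hcd hf0 hc1 ⟨1, h10, hf1⟩ (fun j => by rw [hHF]; exact heq j)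
  refine ⟨AlgebraicClosure (IsLocalRing.ResidueField O), inferInstance, inferInstance,
    ((algebraMap (IsLocalRing.ResidueField O)
      (AlgebraicClosure (IsLocalRing.ResidueField O))).comp τ).toAlgebra,
    fun i => (g i).map (algebraMap (IsLocalRing.ResidueField O)
      (AlgebraicClosure (IsLocalRing.ResidueField O))), ?_, ?_, ?_, ?_, ?_⟩
  · intro i
    exact Polynomial.natDegree_map_le.trans (hgd i)
  · simp only [Polynomial.coeff_map]
    exact (congrArg _ hg0).trans (map_one _)
  · intro i hi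
    simp only [Polynomial.coeff_map]
    exact (congrArg _ (hg1 i hi)).trans (map_zero _)
  · obtain ⟨i, hi, hgi⟩ := hg2
    exact ⟨i, hi, fun h => hgi ((Polynomial.map_eq_zero _).1 h)⟩
  · intro j
    have h3 := hg3 j
    rw [hHR] at h3
    have h4 := MP501976.aeval_map (algebraMap (IsLocalRing.ResidueField O)
      (AlgebraicClosure (IsLocalRing.ResidueField O))) g (MvPolynomial.map τ (G j))
    rw [MvPolynomial.map_map] at h4
    refine h4.symm.trans ?_
    exact (congrArg (Polynomial.map _) h3).trans (Polynomial.map_zero _)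

end IX1
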