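import Pool.Agent.Work.MP_501976_ix.Interface

/-!
# Block CVF: elementary facts on the curve `cv`
-/

universe u v

open Polynomial

namespace IX1

theorem p_CVF : Stmt_CVF.{u} := by
  intro A B _ _ n wt y h0 h1 h2
  refine ⟨fun i => ?_, ?_, fun i hi => ?_, fun φ i => ?_⟩
  · unfold cv
    split_ifs with a b c d
    · subst a
      rw [h0]
      compute_degree
    · subst b
      rw [h1]
      compute_degree
    · subst c
      rw [h2]
      compute_degree
    · refine Polynomial.natDegree_sum_le_of_forall_le _ _ fun l _ => ?_
      refine (Polynomial.natDegree_C_mul_X_pow_le _ _).trans ?_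
      have := l.2
      omega
    · simp
  · simp [cv]
  · unfold cv
    rw [if_neg hi]
    split_ifs with b c d
    · simp
    · simp
    · rw [Polynomial.finsetSum_coeff]
      refine Finset.sum_eq_zero fun l _ => ?_
      simp [Polynomial.coeff_X_pow]
    · simp
  · unfold cv
    split_ifs with a b c d
    · simp
    · simp
    · simp
    · simp [Polynomial.map_sum]
    · simp

end IX1
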