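import Pool.Agent.Work.MP_501976_ix.Interface

/-! Block EXI of `MP_501976_ix`. -/

universe u v

open Polynomial

namespace IX1

theorem p_EXI (hGEN : Stmt_GEN.{u}) (hCRD : Stmt_CRD) (_hCVF : Stmt_CVF.{u})
    (hPEF : Stmt_PEF.{u}) (hLIN : Stmt_LIN.{u}) (hWIN : Stmt_WIN.{u}) : Stmt_EXI.{u} := by
  intro Ω _ _ n c wt π h0 h1 h2 hπ G hG hG0
  have hX : ∀ o : Option (UU wt), (MvPolynomial.X o : MvPolynomial (Option (UU wt)) Ω) ∈
      orig Ω (Option (UU wt)) := fun o => Ideal.subset_span ⟨o, rfl⟩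
  have hlin : ∀ j m, lin Ω wt π j m ∈ orig Ω (Option (UU wt)) := by
    intro j m
    unfold lin
    refine Ideal.add_mem _ (Ideal.sum_mem _ fun a _ => ?_) ?_
    · split_ifs
      · exact hX _
      · exact Ideal.zero_mem _
    · by_cases h : π 1 = j
      · rw [if_pos h]
        refine Ideal.add_mem _ (Ideal.add_mem _ (Ideal.add_mem _ ?_ ?_) ?_) ?_
        · split_ifs
          · exact neg_mem (hX _)
          · exact Ideal.zero_mem _
        · split_ifs
          · exact neg_mem (hX _)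
          · exact Ideal.zero_mem _
        · split_ifs
          · exact Ideal.mul_mem_left _ _ (hX _)
          · exact Ideal.zero_mem _
        · split_ifs
          · exact neg_mem (hX _)
          · exact Ideal.zero_mem _
      · rw [if_neg h]
        exact Ideal.zero_mem _
  have hle : Ideal.span {(MvPolynomial.X none : MvPolynomial (Option (UU wt)) Ω)} ⊔
      orig Ω (Option (UU wt)) ^ 2 ≤ orig Ω (Option (UU wt)) :=
    sup_le (Ideal.span_le.2 (Set.singleton_subset_iff.2 (hX none)))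
      (Ideal.pow_le_self two_ne_zero)
  have hE : ∀ v, EE Ω wt π G v ∈ orig Ω (Option (UU wt)) := by
    intro v
    have h3 := Ideal.add_mem _ (hle (hLIN Ω n c wt π G v)) (hlin v.1 v.2)
    rwa [sub_add_cancel] at h3
  have hvar : ∀ a : UU wt, (MvPolynomial.X (some a) : MvPolynomial (Option (UU wt)) Ω) ∈
      Ideal.span ({MvPolynomial.X none} ∪ Set.range (EE Ω wt π G)) ⊔
        orig Ω (Option (UU wt)) ^ 2 := by
    intro a
    obtain ⟨v, w, hw, hv⟩ := hWIN Ω n c wt π h1 h2 hπ a
    have h3 : lin Ω wt π v.1 v.2 ∈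
        Ideal.span ({MvPolynomial.X none} ∪ Set.range (EE Ω wt π G)) ⊔
          orig Ω (Option (UU wt)) ^ 2 := by
      have h4 := hLIN Ω n c wt π G v
      have h5 : Ideal.span {(MvPolynomial.X none : MvPolynomial (Option (UU wt)) Ω)} ⊔
          orig Ω (Option (UU wt)) ^ 2 ≤
          Ideal.span ({MvPolynomial.X none} ∪ Set.range (EE Ω wt π G)) ⊔
            orig Ω (Option (UU wt)) ^ 2 :=
        sup_le_sup_right (Ideal.span_mono Set.subset_union_left) _
      have h6 : EE Ω wt π G v ∈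
          Ideal.span ({MvPolynomial.X none} ∪ Set.range (EE Ω wt π G)) ⊔
            orig Ω (Option (UU wt)) ^ 2 :=
        Ideal.mem_sup_left (Ideal.subset_span (Or.inr ⟨v, rfl⟩))
      have h7 := Ideal.sub_mem _ h6 (h5 h4)
      rwa [sub_sub_cancel] at h7
    have h7 : (MvPolynomial.X (some a) : MvPolynomial (Option (UU wt)) Ω) =
        MvPolynomial.C w⁻¹ * lin Ω wt π v.1 v.2 := by
      rw [hv, ← mul_assoc, ← map_mul, inv_mul_cancel₀ hw, map_one, one_mul]
    rw [h7]
    exact Ideal.mul_mem_left _ _ h3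
  obtain ⟨F, iF, iA, iG, z, hz, hs⟩ := hGEN Ω (UU wt) (VV wt π) (EE Ω wt π G)
    (hCRD n c wt π h1 h2) hE hvar
  refine ⟨F, iF, iA, iG, z none, fun a => z (some a), hs, fun j => ?_⟩
  obtain ⟨hd, hc0, hf⟩ := hPEF Ω (MvPolynomial (Option (UU wt)) Ω) n c wt π h0 h1 h2 hπ G hG hG0
    (MvPolynomial.X none) (fun a => MvPolynomial.X (some a)) j
  have hf' := hf F (MvPolynomial.aeval z)
  simp only [MvPolynomial.aeval_X] at hf'
  rw [← hf']
  ext m
  rw [Polynomial.coeff_map, Polynomial.coeff_zero]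
  rcases m with _ | m
  · rw [hc0, map_zero]
  · by_cases hm : m < 2 * dg wt π j
    · exact hz ⟨j, ⟨m, hm⟩⟩
    · rw [Polynomial.coeff_eq_zero_of_natDegree_lt (by omega), map_zero]

end IX1
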