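import Pool.Agent.Work.MP_501976_ix.Interface

set_option autoImplicit false

universe u v

open Polynomial

namespace IX1

theorem FIN_hmap {R S : Type*} [CommRing R] [CommRing S] (φ : R →+* S) {N : ℕ}
    {wt : Fin N → ℕ} {d : ℕ} {H : MvPolynomial (Fin N) R} (h : H.IsWeightedHomogeneous wt d) :
    (MvPolynomial.map φ H).IsWeightedHomogeneous wt d := by
  intro e he
  apply h
  intro h0
  apply he
  rw [MvPolynomial.coeff_map, h0, map_zero]

theorem p_FIN (hTRA : Stmt_TRA.{u}) (hPAR : Stmt_PAR.{u, v}) (hNCO : Stmt_NCO.{u}) :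
    Stmt_FIN.{u, v} := by
  intro k _ _ _ L _ _ _ _ n c wt h0 h1 h2 π hπ G hG x hx0 hmin D hDdeg hD w hw hgen L₀ _ _ _ _
    hL₀
  classical
  -- the algebraic closure of `L`
  have hchL : CharZero L := charZero_of_injective_algebraMap (algebraMap ℂ L).injective
  have hchΩ : CharZero (AlgebraicClosure L) :=
    charZero_of_injective_algebraMap (algebraMap L (AlgebraicClosure L)).injective
  have hGx : ∀ j, MvPolynomial.aeval x (G j) = 0 := by
    intro j
    have h3 : Ideal.span (Set.range G) ≤ RingHom.ker
      (MvPolynomial.aeval x : MvPolynomial (Fin (n + 3)) k →ₐ[k] L) := hmin.1.2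
    have h4 : G j ∈ RingHom.ker
      (MvPolynomial.aeval x : MvPolynomial (Fin (n + 3)) k →ₐ[k] L) :=
      h3 (Ideal.subset_span ⟨j, rfl⟩)
    exact h4
  let ψ : k →+* AlgebraicClosure L := (algebraMap L (AlgebraicClosure L)).comp (algebraMap k L)
  obtain ⟨Ω', i1, i2, i3, f, hfd, hfc, ⟨i, hi⟩, hfG⟩ :=
    hTRA (AlgebraicClosure L) n c wt π h0 h1 h2 hπ (fun j => MvPolynomial.map ψ (G j))
      (fun j => FIN_hmap ψ (hG j)) (fun i => algebraMap L (AlgebraicClosure L) (x i))
      (by
        intro hz
        exact hx0 ((map_eq_zero_iff _ (algebraMap L (AlgebraicClosure L)).injective).1 hz))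
      (by
        intro j
        rw [MvPolynomial.eval_map]
        have h3 := hGx j
        rw [MvPolynomial.aeval_def] at h3
        have h4 := congrArg (algebraMap L (AlgebraicClosure L)) h3
        rw [map_zero, MvPolynomial.hom_eval₂] at h4
        exact h4)
  let aL : Algebra L Ω' := ((algebraMap (AlgebraicClosure L) Ω').comp
    (algebraMap L (AlgebraicClosure L))).toAlgebra
  obtain ⟨K, j1, j2, j3, E, hE, φ, T, f', j, hφ, hT, hxT, hj⟩ :=
    hPAR L k (n + 3) c wt G x hmin D hD hDdeg w hw hgen Ω' f hfd
      (by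
        intro i
        rw [hfc]
        rfl)
      (by
        intro j
        have h3 := hfG j
        rw [MvPolynomial.map_map] at h3
        exact h3)
  refine ⟨K, j1, j2, j3, E, hE, φ.comp (algebraMap L₀ L), ?_, ?_⟩
  · intro z
    rw [RingHom.comp_apply, ← IsScalarTower.algebraMap_apply ℂ L₀ L]
    exact hφ z
  · by_contra hcon
    push Not at hcon
    have hKE : Function.Injective (algebraMap K E.FunctionField) :=
      (algebraMap K E.FunctionField).injective
    choose σ hσ using hcon
    let σ' : L₀ →+* K :=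
      { toFun := σ
        map_one' := hKE (by rw [hσ, map_one, map_one])
        map_mul' := fun a b => hKE (by rw [hσ, map_mul, map_mul, hσ, hσ])
        map_zero' := hKE (by rw [hσ, map_zero, map_zero])
        map_add' := fun a b => hKE (by rw [hσ, map_add, map_add, hσ, hσ]) }
    have hcomp : (algebraMap K E.FunctionField).comp σ' = φ.comp (algebraMap L₀ L) := by
      ext a
      exact hσ a
    have halg : IsAlgebraic K (φ (x i / x 0 ^ wt i)) :=
      (hL₀ i).ringHom_of_comp_eq σ' φ σ'.injective hcomp
    rw [map_div₀, map_pow, hxT, hxT] at halg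
    have hc0 : (f' 0).coeff 0 ≠ 0 := by
      intro hz
      have h3 : (f 0).coeff 0 = 0 := by rw [← hj 0, coeff_map, hz, map_zero]
      rw [hfc] at h3
      have h4 := (map_eq_zero_iff _ (algebraMap (AlgebraicClosure L) Ω').injective).1 h3
      exact hx0 ((map_eq_zero_iff _ (algebraMap L (AlgebraicClosure L)).injective).1 h4)
    obtain ⟨b, hb⟩ := hNCO K E.FunctionField T (f' 0) (f' i) (wt i) hT hc0 halg
    apply hi (j b)
    rw [← hj i, ← hj 0, hb, Polynomial.map_mul, Polynomial.map_pow, map_C]

end IX1
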