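import Pool.Agent.Work.MP_501976_ix.Interface

/-! Block GEN (helper52): the generic solution. -/

universe u v

open Polynomial

namespace IX1

theorem GEN_trans (Ω : Type u) [Field Ω] (U : Type) (q : Ideal (MvPolynomial (Option U) Ω))
    (hq : q.IsPrime) (hs : MvPolynomial.X none ∉ q) (hle : q ≤ orig Ω (Option U))
    (P : Polynomial Ω) (hP : Polynomial.aeval (MvPolynomial.X none : MvPolynomial (Option U) Ω) P ∈ q) :
    P = 0 := by
  by_contra hne
  obtain ⟨Q, hPQ, hQ⟩ := Polynomial.exists_eq_pow_rootMultiplicity_mul_and_not_dvd P hne 0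
  rw [C_0, sub_zero] at hPQ hQ
  rw [hPQ, map_mul, map_pow, aeval_X] at hP
  have h1 : Polynomial.aeval (MvPolynomial.X none : MvPolynomial (Option U) Ω) Q ∈ q := by
    rcases hq.mem_or_mem hP with h | h
    · exact absurd (hq.mem_of_pow_mem _ h) hs
    · exact h
  have h2 : orig Ω (Option U) ≤
      RingHom.ker (MvPolynomial.aeval (0 : Option U → Ω) : MvPolynomial (Option U) Ω →ₐ[Ω] Ω) := by
    unfold orig
    rw [Ideal.span_le]
    rintro _ ⟨i, rfl⟩
    rw [SetLike.mem_coe, RingHom.mem_ker, MvPolynomial.aeval_X]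
    rfl
  have h3 := h2 (hle h1)
  rw [RingHom.mem_ker, ← Polynomial.aeval_algHom_apply, MvPolynomial.aeval_X, Pi.zero_apply,
    ← Polynomial.coeff_zero_eq_aeval_zero'] at h3
  apply hQ
  rw [X_dvd_iff]
  simpa using h3

theorem p_GEN (hKRU : Stmt_KRU.{u}) : Stmt_GEN.{u} := by
  intro Ω _ U V _ _ E hcard hE hX
  obtain ⟨q, hq, hEq, hs, hle⟩ := hKRU Ω U V E hcard hE hX
  have := hq
  let R := MvPolynomial (Option U) Ω ⧸ q
  let F := AlgebraicClosure (FractionRing R)
  let φ : MvPolynomial (Option U) Ω →ₐ[Ω] F :=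
    (IsScalarTower.toAlgHom Ω R F).comp (Ideal.Quotient.mkₐ Ω q)
  have hinj : Function.Injective (algebraMap R F) := by
    rw [IsScalarTower.algebraMap_eq R (FractionRing R) F]
    exact (algebraMap (FractionRing R) F).injective.comp (IsFractionRing.injective R _)
  have hφ : ∀ P, φ P = 0 ↔ P ∈ q := by
    intro P
    have h1 : φ P = algebraMap R F (Ideal.Quotient.mk q P) := rfl
    rw [h1, ← map_zero (algebraMap R F), hinj.eq_iff, Ideal.Quotient.eq_zero_iff_mem]
  have hae : ∀ P, MvPolynomial.aeval (fun o => φ (MvPolynomial.X o)) P = φ P := by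
    intro P
    conv_rhs => rw [MvPolynomial.aeval_unique φ]
    rfl
  refine ⟨F, inferInstance, inferInstance, inferInstance, fun o => φ (MvPolynomial.X o), ?_, ?_⟩
  · intro v
    rw [hae, hφ]
    exact hEq v
  · rw [transcendental_iff]
    intro P hP
    rw [Polynomial.aeval_algHom_apply, hφ] at hP
    exact GEN_trans Ω U q hq hs hle P hP

end IX1
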