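import Pool.Agent.Work.MP_501976_ix.Interface

/-!
# Block GHM (typed by helper21): the special equations are weighted homogeneous
-/

universe u v

open Polynomial

namespace IX1

theorem p_GHM (hKAP : Stmt_KAP) : Stmt_GHM.{u} := by
  intro R _ n c wt π h0 h1 h2 hπ j
  obtain ⟨k1, -, -, k4⟩ := hKAP n c wt π h1 h2 hπ
  have hX : ∀ i : Fin (n + 3),
      (MvPolynomial.X i : MvPolynomial (Fin (n + 3)) R).IsWeightedHomogeneous wt (wt i) :=
    fun i => MvPolynomial.isWeightedHomogeneous_X R wt i
  have hX0 : ∀ m : ℕ,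
      (MvPolynomial.X 0 ^ m : MvPolynomial (Fin (n + 3)) R).IsWeightedHomogeneous wt m := by
    intro m
    have h := (hX 0).pow m
    rwa [h0, smul_eq_mul, mul_one] at h
  have hX2 : ∀ m : ℕ,
      (MvPolynomial.X 2 ^ m : MvPolynomial (Fin (n + 3)) R).IsWeightedHomogeneous wt m := by
    intro m
    have h := (hX 2).pow m
    rwa [h2, smul_eq_mul, mul_one] at h
  unfold G0
  refine MvPolynomial.IsWeightedHomogeneous.add ?_ ?_
  · refine MvPolynomial.IsWeightedHomogeneous.sum _ _ _ fun i hi => ?_
    obtain ⟨hi3, hij⟩ := (Finset.mem_filter.mp hi).2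
    have h := ((hX i).mul (hX2 (kap wt π i))).mul (hX0 (dg wt π j - wt i - kap wt π i))
    have hk := k1 i hi3
    rw [hij] at hk
    have e : wt i + kap wt π i + (dg wt π j - wt i - kap wt π i) = dg wt π j := by omega
    rwa [e] at h
  · split_ifs with h
    · rw [h] at k4
      have hq : (MvPolynomial.X 1 ^ 2 - MvPolynomial.X 0 * MvPolynomial.X 2 :
          MvPolynomial (Fin (n + 3)) R).IsWeightedHomogeneous wt 2 := by
        have e1 := (hX 1).pow 2
        rw [h1, smul_eq_mul, mul_one] at e1
        have e2 := (hX 0).mul (hX 2)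
        rw [h0, h2] at e2
        exact e1.sub e2
      have h3 := hq.mul (hX0 (dg wt π j - 2))
      have e : 2 + (dg wt π j - 2) = dg wt π j := by omega
      rwa [e] at h3
    · exact MvPolynomial.isWeightedHomogeneous_zero R wt _

end IX1

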