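import Pool.Agent.Work.MP_501976_ix.Interface

/-! Block HOM (helper89). -/

universe u

open Polynomial

namespace IX1

theorem p_HOM : Stmt_HOM.{u} := by
  intro R A _ _ _ N wt d H hH lam x
  rw [MvPolynomial.aeval_def, MvPolynomial.aeval_def, MvPolynomial.eval₂_eq,
    MvPolynomial.eval₂_eq, Finset.mul_sum]
  refine Finset.sum_congr rfl fun e he => ?_
  have hw : Finsupp.weight wt e = d := hH (MvPolynomial.mem_support_iff.mp he)
  have key : ∏ i ∈ e.support, (lam ^ wt i * x i) ^ e i
      = lam ^ d * ∏ i ∈ e.support, x i ^ e i := by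
    have h1 : ∀ i ∈ e.support, (lam ^ wt i * x i) ^ e i = lam ^ (e i * wt i) * x i ^ e i := by
      intro i _
      rw [mul_pow, ← pow_mul, mul_comm (wt i) (e i)]
    rw [Finset.prod_congr rfl h1, Finset.prod_mul_distrib, Finset.prod_pow_eq_pow_sum, ← hw,
      Finsupp.weight_apply, Finsupp.sum]
    simp
  rw [key]
  ring

end IX1
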