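import Pool.Agent.Work.MP_501976_ix.Interface

universe u v

open Polynomial

namespace IX1

theorem KRU_orig_eq (Ω : Type u) [Field Ω] (σ : Type) :
    orig Ω σ = RingHom.ker (MvPolynomial.constantCoeff : MvPolynomial σ Ω →+* Ω) := by
  apply le_antisymm
  · unfold orig
    rw [Ideal.span_le]
    rintro _ ⟨i, rfl⟩
    show MvPolynomial.X i ∈ RingHom.ker _
    rw [RingHom.mem_ker, MvPolynomial.constantCoeff_X]
  · intro p hp
    rw [RingHom.mem_ker, MvPolynomial.constantCoeff_eq] at hp
    unfold orig
    rw [← Set.image_univ, MvPolynomial.mem_ideal_span_X_image]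
    intro m hm
    by_contra hcon
    push Not at hcon
    have hm0 : m = 0 := by
      ext i
      exact hcon i (Set.mem_univ i)
    rw [hm0, MvPolynomial.mem_support_iff] at hm
    exact hm hp

theorem KRU_prime (Ω : Type u) [Field Ω] (σ : Type) : (orig Ω σ).IsPrime := by
  rw [KRU_orig_eq]
  exact RingHom.ker_isPrime _

theorem KRU_height (Ω : Type u) [Field Ω] (σ : Type) [Fintype σ] :
    ((Fintype.card σ : ℕ) : ℕ∞) ≤ (orig Ω σ).height := by
  classical
  set e := (MvPolynomial.renameEquiv Ω (Fintype.equivFin σ)).toRingEquiv with he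
  have h1 := RingEquiv.height_map e (orig Ω σ)
  have h2 : (orig Ω σ).map e = Ideal.span
      ((MvPolynomial.X : Fin (Fintype.card σ) → MvPolynomial (Fin (Fintype.card σ)) Ω) ''
        ((Finset.univ : Finset (Fin (Fintype.card σ))) : Set (Fin (Fintype.card σ)))) := by
    unfold orig
    rw [Ideal.map_span]
    congr 1
    ext p
    constructor
    · rintro ⟨_, ⟨i, rfl⟩, rfl⟩
      refine ⟨Fintype.equivFin σ i, by simp, ?_⟩
      simp [he]
    · rintro ⟨i, -, rfl⟩
      refine ⟨MvPolynomial.X ((Fintype.equivFin σ).symm i), ⟨_, rfl⟩, ?_⟩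
      simp [he]
  rw [← h1, h2]
  have h3 := Pool.Agent.Work.MP_f82ddf_nt.card_le_height (k := Ω)
    (Finset.univ : Finset (Fin (Fintype.card σ)))
  rwa [Finset.card_univ, Fintype.card_fin] at h3

theorem p_KRU : Stmt_KRU.{u} := by
  classical
  intro Ω _ U V _ _ E hcard hE hlin
  have hm := KRU_prime Ω (Option U)
  have hle : Ideal.span ((Finset.univ.image E : Finset (MvPolynomial (Option U) Ω)) :
      Set (MvPolynomial (Option U) Ω)) ≤ orig Ω (Option U) := by
    rw [Ideal.span_le]
    intro p hp
    rw [Finset.coe_image] at hp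
    obtain ⟨v, -, rfl⟩ := hp
    exact hE v
  obtain ⟨q, hq, hqm⟩ := Ideal.exists_minimalPrimes_le hle
  have hqp : q.IsPrime := hq.1.1
  have hEq : ∀ v, E v ∈ q := by
    intro v
    apply hq.1.2
    apply Ideal.subset_span
    rw [Finset.coe_image]
    exact ⟨v, by simp, rfl⟩
  have hheight : q.height ≤ (Finset.univ.image E).card :=
    Ideal.height_le_card_of_mem_minimalPrimes_span_finset hq
  refine ⟨q, hqp, hEq, ?_, hqm⟩
  intro hs
  have hsup : orig Ω (Option U) ≤ q ⊔ orig Ω (Option U) • orig Ω (Option U) := by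
    show Ideal.span _ ≤ _
    rw [Ideal.span_le]
    rintro _ ⟨o, rfl⟩
    show MvPolynomial.X o ∈ q ⊔ orig Ω (Option U) • orig Ω (Option U)
    rcases o with _ | a
    · exact Submodule.mem_sup_left hs
    · have h1 : Ideal.span ({MvPolynomial.X none} ∪ Set.range E) ⊔ orig Ω (Option U) ^ 2 ≤
          q ⊔ orig Ω (Option U) • orig Ω (Option U) := by
        apply sup_le_sup
        · rw [Ideal.span_le]
          rintro p (hp | ⟨v, rfl⟩)
          · rw [Set.mem_singleton_iff] at hp
            rw [hp]
            exact hs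
          · exact hEq v
        · rw [sq, smul_eq_mul]
      exact h1 (hlin a)
  have hfg : (orig Ω (Option U)).FG := MvPolynomial.idealOfVars_fg _ _
  obtain ⟨r, hr1, hr2⟩ := Submodule.exists_sub_one_mem_and_smul_le_of_fg_of_le_sup hfg le_rfl hsup
  have hrq : r ∉ q := by
    intro hr
    have h1 : r ∈ orig Ω (Option U) := hqm hr
    have h2 : (1 : MvPolynomial (Option U) Ω) ∈ orig Ω (Option U) := by
      have := Ideal.sub_mem _ h1 hr1
      rwa [sub_sub_cancel] at this
    exact hm.ne_top ((Ideal.eq_top_iff_one _).2 h2)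
  have hmq : orig Ω (Option U) ≤ q := by
    intro x hx
    have h1 : r * x ∈ q := by
      apply hr2
      exact Submodule.smul_mem_pointwise_smul x r _ hx
    exact (hqp.mem_or_mem h1).resolve_left hrq
  have hqe : q = orig Ω (Option U) := le_antisymm hqm hmq
  have h3 := KRU_height Ω (Option U)
  rw [← hqe] at h3
  have h4 : ((Fintype.card (Option U) : ℕ) : ℕ∞) ≤ ((Finset.univ.image E).card : ℕ∞) :=
    h3.trans hheight
  have h5 : Fintype.card (Option U) ≤ (Finset.univ.image E).card := by exact_mod_cast h4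
  have h6 : (Finset.univ.image E).card ≤ Fintype.card V := by
    refine Finset.card_image_le.trans ?_
    rw [Finset.card_univ]
  rw [Fintype.card_option] at h5
  omega

end IX1
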