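import Pool.Agent.Work.MP_501976_ix.Interface

/-! Block LIN (helper89). -/

universe u

open Polynomial

namespace IX1

variable {n c : ℕ}

theorem LIN_pow {A : Type u} [CommRing A] {I : Ideal A[X]} {f g : A[X]} (h : f - g ∈ I)
    (k : ℕ) : f ^ k - g ^ k ∈ I :=
  I.mem_of_dvd (sub_dvd_pow_sub_pow f g k) h

theorem LIN_cv0 {A : Type u} [CommRing A] (wt : Fin (n + 3) → ℕ) (y : UU wt → A) :
    cv wt y 0 = 1 + C (y (Sum.inl 0)) * X ^ 2 := by
  simp [cv]

theorem LIN_cv1 {A : Type u} [CommRing A] (wt : Fin (n + 3) → ℕ) (y : UU wt → A) :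
    cv wt y 1 = X + C (y (Sum.inl 1)) * X ^ 2 := by
  have h1 : (1 : Fin (n + 3)) ≠ 0 := by
    intro h
    simpa using congrArg Fin.val h
  simp [cv, h1]

theorem LIN_cv2 {A : Type u} [CommRing A] (wt : Fin (n + 3) → ℕ) (y : UU wt → A) :
    cv wt y 2 = C (y (Sum.inl 2)) * X + C (1 + y (Sum.inl 3)) * X ^ 2 := by
  have h1 : (2 : Fin (n + 3)) ≠ 0 := by
    intro h
    have := congrArg Fin.val h
    simp [Nat.mod_eq_of_lt (show 2 < n + 3 by omega)] at this
  have h2 : (2 : Fin (n + 3)) ≠ 1 := by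
    intro h
    have := congrArg Fin.val h
    simp [Nat.mod_eq_of_lt (show 2 < n + 3 by omega)] at this
  unfold cv
  rw [if_neg h1, if_neg h2, if_pos rfl]

theorem LIN_cv3 {A : Type u} [CommRing A] (wt : Fin (n + 3) → ℕ) (y : UU wt → A)
    (i : Fin (n + 3)) (h : 3 ≤ i.val) :
    cv wt y i = ∑ l : Fin (2 * wt i), C (y (Sum.inr ⟨⟨i, h⟩, l⟩)) * X ^ ((l : ℕ) + 1) := by
  have h0 : i ≠ 0 := by
    rintro rfl
    simp at h
  have h1 : i ≠ 1 := by
    rintro rfl
    simp at h
  have h2 : i ≠ 2 := by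
    rintro rfl
    simp [Nat.mod_eq_of_lt (show 2 < n + 3 by omega)] at h
  unfold cv
  rw [if_neg h0, if_neg h1, if_neg h2, dif_pos h]

theorem LIN_CX {A : Type u} [CommRing A] {I : Ideal A} {a : A} (h : a ∈ I) (k : ℕ) :
    C a * (X : A[X]) ^ k ∈ Ideal.map (C : A →+* A[X]) I :=
  Ideal.mul_mem_right _ _ (Ideal.mem_map_of_mem _ h)

/-- The linear part of the special equation. -/
theorem LIN_core {A : Type u} [CommRing A] (I : Ideal A) (wt : Fin (n + 3) → ℕ)
    (π : Fin (n + 3) → Fin c) (y : UU wt → A) (hy : ∀ a, y a ∈ I) (j : Fin c) :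
    MvPolynomial.aeval (cv wt y) (G0 A wt π j) -
      ((∑ i ∈ Finset.univ.filter (fun i : Fin (n + 3) => 3 ≤ i.val ∧ π i = j),
        cv wt y i * X ^ (2 * kap wt π i)) +
      if π 1 = j then
        (- (C (y (Sum.inl 2)) * X) - C (y (Sum.inl 3)) * X ^ 2 + C (2 * y (Sum.inl 1)) * X ^ 3 -
          C (y (Sum.inl 0)) * X ^ 4)
      else 0) ∈ Ideal.map (C : A →+* A[X]) (I ^ 2) := by
  set IX : Ideal A[X] := Ideal.map (C : A →+* A[X]) I with hIX
  have hsq : Ideal.map (C : A →+* A[X]) (I ^ 2) = IX * IX := by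
    rw [Ideal.map_pow, sq]
  rw [hsq]
  have hf0 : cv wt y 0 - 1 ∈ IX := by
    rw [LIN_cv0, add_sub_cancel_left]
    exact LIN_CX (hy _) 2
  have hf2 : cv wt y 2 - X ^ 2 ∈ IX := by
    have : cv wt y 2 - X ^ 2
        = C (y (Sum.inl 2)) * X ^ 1 + C (y (Sum.inl 3)) * X ^ 2 := by
      rw [LIN_cv2, C_add, C_1]
      ring
    rw [this]
    exact IX.add_mem (LIN_CX (hy _) 1) (LIN_CX (hy _) 2)
  have hf3 : ∀ i : Fin (n + 3), 3 ≤ i.val → cv wt y i ∈ IX := by
    intro i hi
    rw [LIN_cv3 wt y i hi]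
    exact IX.sum_mem fun l _ => LIN_CX (hy _) _
  have hp0 : ∀ e : ℕ, cv wt y 0 ^ e - 1 ∈ IX := by
    intro e
    have := LIN_pow hf0 e
    rwa [one_pow] at this
  have hp2 : ∀ k : ℕ, cv wt y 2 ^ k - X ^ (2 * k) ∈ IX := by
    intro k
    have := LIN_pow hf2 k
    rwa [← pow_mul] at this
  have hp : ∀ k e : ℕ, cv wt y 2 ^ k * cv wt y 0 ^ e - X ^ (2 * k) ∈ IX := by
    intro k e
    have : cv wt y 2 ^ k * cv wt y 0 ^ e - X ^ (2 * k)
        = cv wt y 0 ^ e * (cv wt y 2 ^ k - X ^ (2 * k)) + X ^ (2 * k) * (cv wt y 0 ^ e - 1) := by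
      ring
    rw [this]
    exact IX.add_mem (IX.mul_mem_left _ (hp2 k)) (IX.mul_mem_left _ (hp0 e))
  -- the aeval
  have haev : MvPolynomial.aeval (cv wt y) (G0 A wt π j)
      = (∑ i ∈ Finset.univ.filter (fun i : Fin (n + 3) => 3 ≤ i.val ∧ π i = j),
        cv wt y i * cv wt y 2 ^ kap wt π i * cv wt y 0 ^ (dg wt π j - wt i - kap wt π i)) +
      if π 1 = j then
        (cv wt y 1 ^ 2 - cv wt y 0 * cv wt y 2) * cv wt y 0 ^ (dg wt π j - 2)
      else 0 := by
    unfold G0
    rw [map_add, map_sum]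
    congr 1
    · refine Finset.sum_congr rfl fun i _ => ?_
      simp
    · split_ifs
      · simp
      · simp
  rw [haev, add_sub_add_comm, ← Finset.sum_sub_distrib]
  refine (IX * IX).add_mem ?_ ?_
  · refine (IX * IX).sum_mem fun i hi => ?_
    have hi3 : 3 ≤ i.val := (Finset.mem_filter.mp hi).2.1
    have : cv wt y i * cv wt y 2 ^ kap wt π i * cv wt y 0 ^ (dg wt π j - wt i - kap wt π i) -
        cv wt y i * X ^ (2 * kap wt π i)
        = cv wt y i * (cv wt y 2 ^ kap wt π i * cv wt y 0 ^ (dg wt π j - wt i - kap wt π i) -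
          X ^ (2 * kap wt π i)) := by
      ring
    rw [this]
    exact Ideal.mul_mem_mul (hf3 i hi3) (hp _ _)
  · split_ifs with h1
    · have hu : cv wt y 1 ^ 2 - cv wt y 0 * cv wt y 2
          = (- (C (y (Sum.inl 2)) * X) - C (y (Sum.inl 3)) * X ^ 2 +
            C (2 * y (Sum.inl 1)) * X ^ 3 - C (y (Sum.inl 0)) * X ^ 4) +
            (C (y (Sum.inl 1) * y (Sum.inl 1)) * X ^ 4 - C (y (Sum.inl 0) * y (Sum.inl 2)) * X ^ 3
              - C (y (Sum.inl 0) * y (Sum.inl 3)) * X ^ 4) := by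
        rw [LIN_cv0, LIN_cv1, LIN_cv2]
        simp only [C_add, C_1, C_mul, map_ofNat]
        ring
      set L : A[X] := (- (C (y (Sum.inl 2)) * X) - C (y (Sum.inl 3)) * X ^ 2 +
            C (2 * y (Sum.inl 1)) * X ^ 3 - C (y (Sum.inl 0)) * X ^ 4) with hL
      set Q : A[X] := (C (y (Sum.inl 1) * y (Sum.inl 1)) * X ^ 4 -
            C (y (Sum.inl 0) * y (Sum.inl 2)) * X ^ 3
              - C (y (Sum.inl 0) * y (Sum.inl 3)) * X ^ 4) with hQ
      have hLI : L ∈ IX := by
        rw [hL]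
        refine IX.sub_mem (IX.add_mem (IX.sub_mem (IX.neg_mem ?_) ?_) ?_) ?_
        · have := LIN_CX (hy (Sum.inl 2)) 1
          rwa [pow_one] at this
        · exact LIN_CX (hy _) _
        · exact LIN_CX (I.mul_mem_left _ (hy _)) _
        · exact LIN_CX (hy _) _
      have hQI : Q ∈ IX * IX := by
        have hmm : ∀ a b : UU wt, ∀ k : ℕ, C (y a * y b) * (X : A[X]) ^ k ∈ IX * IX := by
          intro a b k
          have := LIN_CX (Ideal.mul_mem_mul (hy a) (hy b)) k
          rwa [← sq, hsq] at this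
        rw [hQ]
        exact (IX * IX).sub_mem ((IX * IX).sub_mem (hmm _ _ _) (hmm _ _ _)) (hmm _ _ _)
      have hfin : (cv wt y 1 ^ 2 - cv wt y 0 * cv wt y 2) * cv wt y 0 ^ (dg wt π j - 2) - L
          = L * (cv wt y 0 ^ (dg wt π j - 2) - 1) + cv wt y 0 ^ (dg wt π j - 2) * Q := by
        rw [hu]
        ring
      rw [hfin]
      exact (IX * IX).add_mem (Ideal.mul_mem_mul hLI (hp0 _)) ((IX * IX).mul_mem_left _ hQI)
    · simp

theorem p_LIN : Stmt_LIN.{u} := by
  intro Ω _ n c wt π G v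
  obtain ⟨j, m⟩ := v
  set A := MvPolynomial (Option (UU wt)) Ω with hA
  set s : A := MvPolynomial.X none with hs
  set y : UU wt → A := fun a => (MvPolynomial.X (some a) : A) with hy
  set I : Ideal A := orig Ω (Option (UU wt)) with hI
  have hyI : ∀ a, y a ∈ I := fun a => Ideal.subset_span ⟨some a, rfl⟩
  have hcore := LIN_core I wt π y hyI j
  rw [Ideal.mem_map_C_iff] at hcore
  have hc := hcore ((m : ℕ) + 1)
  -- the linear form is the coefficient
  have hlin : lin Ω wt π j m = ((∑ i ∈ Finset.univ.filter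
        (fun i : Fin (n + 3) => 3 ≤ i.val ∧ π i = j), cv wt y i * X ^ (2 * kap wt π i)) +
      if π 1 = j then
        (- (C (y (Sum.inl 2)) * X) - C (y (Sum.inl 3)) * X ^ 2 + C (2 * y (Sum.inl 1)) * X ^ 3 -
          C (y (Sum.inl 0)) * X ^ 4)
      else 0).coeff ((m : ℕ) + 1) := by
    unfold lin
    rw [coeff_add, finsetSum_coeff]
    congr 1
    · rw [Fintype.sum_sigma]
      have hL : ∀ i : {i : Fin (n + 3) // 3 ≤ i.val},
          (∑ l : Fin (2 * wt i), if π i.1 = j ∧ 2 * kap wt π i.1 + (l : ℕ) = m then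
            (MvPolynomial.X (some (Sum.inr ⟨i, l⟩)) : A) else 0)
          = if π i.1 = j then (cv wt y i.1 * X ^ (2 * kap wt π i.1)).coeff ((m : ℕ) + 1)
            else 0 := by
        intro i
        by_cases hij : π i.1 = j
        · rw [if_pos hij, LIN_cv3 wt y i.1 i.2, Finset.sum_mul, finsetSum_coeff]
          refine Finset.sum_congr rfl fun l _ => ?_
          rw [mul_assoc, ← pow_add, coeff_C_mul, coeff_X_pow]
          by_cases hl : 2 * kap wt π i.1 + (l : ℕ) = m
          · rw [if_pos ⟨hij, hl⟩, if_pos (by omega), mul_one]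
          · rw [if_neg (fun h => hl h.2), if_neg (by omega), mul_zero]
        · rw [if_neg hij]
          refine Finset.sum_eq_zero fun l _ => ?_
          rw [if_neg (fun h => hij h.1)]
      rw [Finset.sum_congr rfl fun i _ => hL i]
      have hsub : (∑ i : {i : Fin (n + 3) // 3 ≤ i.val}, if π i.1 = j then
            (cv wt y i.1 * X ^ (2 * kap wt π i.1)).coeff ((m : ℕ) + 1) else 0)
          = ∑ i ∈ Finset.univ.filter (fun i : Fin (n + 3) => 3 ≤ i.val), if π i = j then
            (cv wt y i * X ^ (2 * kap wt π i)).coeff ((m : ℕ) + 1) else 0 :=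
        (Finset.sum_subtype _ (by intro x; simp) (fun i : Fin (n + 3) => if π i = j then
            (cv wt y i * X ^ (2 * kap wt π i)).coeff ((m : ℕ) + 1) else 0)).symm
      rw [hsub, ← Finset.sum_filter, Finset.filter_filter]
    · by_cases h1 : π 1 = j
      · rw [if_pos h1, if_pos h1]
        have hm : ∀ k : ℕ, (X ^ k : A[X]).coeff ((m : ℕ) + 1) = if (m : ℕ) + 1 = k then 1 else 0 :=
          fun k => coeff_X_pow k _
        have hX : (X : A[X]).coeff ((m : ℕ) + 1) = if (m : ℕ) + 1 = 1 then 1 else 0 := by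
          have := hm 1
          rwa [pow_one] at this
        simp only [coeff_add, coeff_sub, coeff_neg, coeff_C_mul, hm, hX]
        by_cases e0 : (m : ℕ) = 0
        · rw [e0]
          simp [hy]
        · by_cases e1 : (m : ℕ) = 1
          · rw [e1]
            simp [hy]
          · by_cases e2 : (m : ℕ) = 2
            · rw [e2]
              simp [hy]
            · by_cases e3 : (m : ℕ) = 3
              · rw [e3]
                simp [hy]
              · rw [if_neg e0, if_neg e1, if_neg e2, if_neg e3, if_neg (by omega),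
                  if_neg (by omega), if_neg (by omega), if_neg (by omega)]
                simp
      · rw [if_neg h1, if_neg h1, coeff_zero]
  have hEE : EE Ω wt π G ⟨j, m⟩ = (1 - s) *
      (MvPolynomial.aeval (cv wt y) (G0 A wt π j)).coeff ((m : ℕ) + 1) +
      s * (MvPolynomial.aeval (cv wt y) (MvPolynomial.map (algebraMap Ω A) (G j))).coeff
        ((m : ℕ) + 1) := by
    unfold EE pen
    rw [map_add, map_mul, map_mul, MvPolynomial.aeval_C, MvPolynomial.aeval_C, coeff_add]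
    simp only [Polynomial.algebraMap_apply, Algebra.algebraMap_self, RingHom.id_apply,
      coeff_C_mul]
    rfl
  rw [coeff_sub] at hc
  rw [← hlin] at hc
  have hfin : EE Ω wt π G ⟨j, m⟩ - lin Ω wt π j m = s *
      ((MvPolynomial.aeval (cv wt y) (MvPolynomial.map (algebraMap Ω A) (G j))).coeff
        ((m : ℕ) + 1) - (MvPolynomial.aeval (cv wt y) (G0 A wt π j)).coeff ((m : ℕ) + 1)) +
      ((MvPolynomial.aeval (cv wt y) (G0 A wt π j)).coeff ((m : ℕ) + 1) - lin Ω wt π j m) := by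
    rw [hEE]
    ring
  change EE Ω wt π G ⟨j, m⟩ - lin Ω wt π j m ∈ _
  rw [hfin]
  refine Ideal.add_mem _ (Ideal.mem_sup_left ?_) (Ideal.mem_sup_right hc)
  exact Ideal.mul_mem_right _ _ (Ideal.mem_span_singleton_self s)

end IX1
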