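import Pool.Agent.Work.MP_501976_ix.Interface

/-!
# Block NRM: normalisation of a finite family with positive weights
-/

universe u v

open Polynomial

namespace IX1

theorem p_NRM : Stmt_NRM.{u} := by
  intro F _ _ O ι _ a n hn ha
  have h1 : ∀ x, ∃ z : F, z ^ n x = a x := fun x => IsAlgClosed.exists_pow_nat_eq (a x) (hn x)
  choose ρ hρ using h1
  obtain ⟨x1, hx1⟩ := ha
  obtain ⟨x0, -, hx0⟩ := Finset.exists_max_image Finset.univ (fun x => O.valuation (ρ x))
    ⟨x1, Finset.mem_univ x1⟩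
  have hρ1 : ρ x1 ≠ 0 := by
    intro h
    apply hx1
    rw [← hρ x1, h, zero_pow (hn x1).ne']
  have hr : ρ x0 ≠ 0 := by
    intro h
    have h2 := hx0 x1 (Finset.mem_univ x1)
    rw [h, map_zero] at h2
    have h3 : O.valuation (ρ x1) = 0 := le_antisymm h2 zero_le
    exact hρ1 ((map_eq_zero _).1 h3)
  have hv : O.valuation (ρ x0) ≠ 0 := fun h => hr ((map_eq_zero _).1 h)
  have key : ∀ x, a x / ρ x0 ^ n x = (ρ x / ρ x0) ^ n x := by
    intro x
    rw [div_pow, hρ x]
  refine ⟨ρ x0, hr, fun x => ?_, x0, ?_⟩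
  · rw [← ValuationSubring.valuation_le_one_iff, key, map_pow, map_div₀]
    refine pow_le_one₀ zero_le ?_
    exact (div_le_one₀ (zero_lt_iff.2 hv)).2 (hx0 x (Finset.mem_univ x))
  · intro h
    rw [ValuationSubring.mem_nonunits_iff, key, div_self hr, one_pow, map_one] at h
    exact lt_irrefl _ h

end IX1
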