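import Pool.Agent.Work.MP_501976_ix.Interface

/-! # Block ORD -/

universe u

open Polynomial

namespace IX1

theorem ORD_dvd {F : Type u} [Field F] (w : ℕ) (f : F[X]) (ε : F) (hε : ε ^ 2 = 1)
    (h : ∀ l < w, (f.comp (C ε * (1 - X))).coeff l = 0) : (1 - C ε * X) ^ w ∣ f := by
  obtain ⟨g, hg⟩ := X_pow_dvd_iff.2 h
  refine ⟨g.comp (1 - C ε * X), ?_⟩
  have h1 : (C ε * (1 - X) : F[X]).comp (1 - C ε * X) = X := by
    rw [mul_comp, sub_comp, C_comp, one_comp, X_comp]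
    have h2 : (C ε * C ε : F[X]) = 1 := by rw [← C_mul, ← pow_two, hε, C_1]
    linear_combination X * h2
  have h3 := congrArg (fun p => p.comp (1 - C ε * X)) hg
  simp only [comp_assoc, h1, comp_X, mul_comp, X_pow_comp] at h3
  exact h3

theorem p_ORD : Stmt_ORD.{u} := by
  intro F _ _ w f hf h0 hne
  by_contra hcon
  push Not at hcon
  have h1 := ORD_dvd w f 1 (one_pow 2) (hcon 1 (one_pow 2))
  have h2 := ORD_dvd w f (-1) (by norm_num) (hcon (-1) (by norm_num))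
  have hcop : IsCoprime (1 - C (1 : F) * X : F[X]) (1 - C (-1 : F) * X) := by
    refine ⟨C (2⁻¹ : F), C (2⁻¹ : F), ?_⟩
    have h3 : (C (2⁻¹ : F) * C 2 : F[X]) = 1 := by
      rw [← C_mul, inv_mul_cancel₀ (two_ne_zero), C_1]
    have h4 : (C (2 : F) : F[X]) = 2 := rfl
    rw [h4] at h3
    rw [C_neg, C_1]
    linear_combination h3
  obtain ⟨g, hg⟩ := (hcop.pow (m := w) (n := w)).mul_dvd h1 h2
  have hg0 : g ≠ 0 := fun h => hne (by rw [hg, h, mul_zero])
  have hd : ∀ ε : F, ε ≠ 0 → (1 - C ε * X : F[X]).natDegree = 1 := by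
    intro ε hε
    have h5 : (1 - C ε * X : F[X]) = C (-ε) * X + C 1 := by
      rw [C_neg, C_1]
      ring
    rw [h5, natDegree_linear (neg_ne_zero.2 hε)]
  have hn : ∀ ε : F, ε ≠ 0 → (1 - C ε * X : F[X]) ≠ 0 := by
    intro ε hε h
    have := hd ε hε
    rw [h, natDegree_zero] at this
    exact zero_ne_one this
  have h1ne : (1 : F) ≠ 0 := one_ne_zero
  have h2ne : (-1 : F) ≠ 0 := neg_ne_zero.2 one_ne_zero
  have hdeg : f.natDegree = w + w + g.natDegree := by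
    rw [hg, natDegree_mul (mul_ne_zero (pow_ne_zero _ (hn _ h1ne)) (pow_ne_zero _ (hn _ h2ne))) hg0,
      natDegree_mul (pow_ne_zero _ (hn _ h1ne)) (pow_ne_zero _ (hn _ h2ne)), natDegree_pow,
      natDegree_pow, hd _ h1ne, hd _ h2ne, mul_one]
  have hg1 : g.natDegree = 0 := by omega
  obtain ⟨c, hc⟩ : ∃ c, g = C c := ⟨_, eq_C_of_natDegree_eq_zero hg1⟩
  have h6 : f.coeff 0 = c := by
    rw [hg, hc, coeff_zero_eq_eval_zero]
    simp
  rw [h0] at h6
  exact hg0 (by rw [hc, ← h6, C_0])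

end IX1
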