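import Pool.Agent.Work.MP_501976_ix.Interface

/-! # Block PAR: from a curve through the generic point to an elliptic curve -/

set_option autoImplicit false

universe u v

open Polynomial

namespace IX1

theorem PAR_deg {R : Type*} [CommRing R] {N : ℕ} (wt : Fin N → ℕ) (D : MvPolynomial (Fin N) R)
    (m : ℕ) (h : MvPolynomial.weightedTotalDegree wt D ≤ m) :
    MvPolynomial.weightedTotalDegree (fun i => 2 * wt i) D ≤ 2 * m := by
  classical
  rw [MvPolynomial.weightedTotalDegree]
  refine Finset.sup_le fun e he => ?_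
  have h1 : Finsupp.weight wt e ≤ m := (MvPolynomial.le_weightedTotalDegree wt he).trans h
  have h2 : Finsupp.weight (fun i => 2 * wt i) e = 2 * Finsupp.weight wt e := by
    rw [Finsupp.weight_apply, Finsupp.weight_apply, Finsupp.sum, Finsupp.sum, Finset.mul_sum]
    refine Finset.sum_congr rfl fun i _ => ?_
    rw [smul_eq_mul, smul_eq_mul]
    ring
  rw [h2]
  exact Nat.mul_le_mul_left 2 h1

theorem p_PAR : Stmt_PAR.{u, v} := by
  intro L _ _ k _ _ _ _ _ N c wt G x hmin D hD hdeg w hw hgen Ω _ _ _ f hfd hf1 hf3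
  classical
  let _ : Algebra ℂ Ω := ((algebraMap L Ω).comp (algebraMap ℂ L)).toAlgebra
  have hST : IsScalarTower ℂ L Ω := IsScalarTower.of_algebraMap_eq fun z => rfl
  have hc0 : CharZero Ω := charZero_of_injective_algebraMap (algebraMap ℂ Ω).injective
  let f0 : k →ₐ[ℂ] Ω := (IsScalarTower.toAlgHom ℂ L Ω).comp (IsScalarTower.toAlgHom ℂ k L)
  have hf0 : ∀ a, f0 a = algebraMap L Ω (algebraMap k L a) := fun a => rfl
  have hf0' : (algebraMap L Ω).comp (algebraMap k L) = (f0 : k →+* Ω) := by
    ext a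
    rfl
  rw [hf0'] at hf3
  have hev : ∀ A : MvPolynomial (Fin N) k,
      MvPolynomial.eval (fun i => algebraMap L Ω (x i)) (MvPolynomial.map (f0 : k →+* Ω) A) =
        algebraMap L Ω (MvPolynomial.aeval x A) := fun A =>
    MP501976.eval_map_hom x (f0 : k →+* Ω) hf0 A
  have hLΩ : Function.Injective (algebraMap L Ω) := (algebraMap L Ω).injective
  -- the value of the branch polynomial
  set F : Polynomial Ω := MvPolynomial.aeval f (MvPolynomial.map (f0 : k →+* Ω) D) with hF
  have hF0 : F.coeff 0 = algebraMap L Ω (MvPolynomial.aeval x D) := by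
    rw [hF, MP501976.aeval_eval_zero]
    simp only [hf1]
    exact hev D
  have hDΩ : algebraMap L Ω (MvPolynomial.aeval x D) ≠ 0 := (map_ne_zero_iff _ hLΩ).mpr hD
  have hFd : F.natDegree ≤ 4 := by
    refine MP501976.aeval_natDegree_le_weighted (fun i => 2 * wt i) f hfd _ ?_
    exact (MP501976.weightedTotalDegree_map_le _ _ D).trans (PAR_deg wt D 2 hdeg)
  obtain ⟨α, hα⟩ : ∃ α : Ω, α ^ 2 = algebraMap L Ω (MvPolynomial.aeval x D) :=
    IsAlgClosed.exists_pow_nat_eq _ two_pos
  obtain ⟨s₁, hs₁, hFs⟩ := MP501976.exists_factors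
    (C (algebraMap L Ω (MvPolynomial.aeval x D))⁻¹ * F) 4
    (by rw [coeff_C_mul, hF0, inv_mul_cancel₀ hDΩ]) ((natDegree_C_mul_le _ _).trans hFd)
  have hFg : F = C (α ^ 2) * (s₁.map fun r => (1 - C r * X : Polynomial Ω)).prod := by
    rw [← hFs, hα, ← mul_assoc, ← C_mul, mul_inv_cancel₀ hDΩ, C_1, one_mul]
  -- the finitely generated field
  obtain ⟨t, ht⟩ := IntermediateField.fg_top ℂ k
  let cf : Polynomial Ω → Finset Ω := fun P => (Finset.range (P.natDegree + 1)).image P.coeff
  let S : Finset Ω := t.image f0 ∪ (Finset.univ.biUnion fun i => cf (f i)) ∪ {α} ∪ s₁.toFinset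
  let K : IntermediateField ℂ Ω := IntermediateField.adjoin ℂ (S : Set Ω)
  have hSK : ∀ a ∈ S, a ∈ K := fun a ha => IntermediateField.subset_adjoin ℂ _ ha
  have hcf : ∀ P : Polynomial Ω, cf P ⊆ S → ∀ n, P.coeff n ∈ Set.range (algebraMap K Ω) := by
    intro P hP n
    by_cases hn : n < P.natDegree + 1
    · exact ⟨⟨P.coeff n, hSK _ (hP (Finset.mem_image_of_mem _ (Finset.mem_range.mpr hn)))⟩, rfl⟩
    · refine ⟨0, ?_⟩
      rw [map_zero, coeff_eq_zero_of_natDegree_lt (by omega)]
  have hKΩ : Function.Injective (algebraMap K Ω) := (algebraMap K Ω).injective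
  have hcK : CharZero K := charZero_of_injective_algebraMap (algebraMap ℂ K).injective
  have hmapinj : Function.Injective (Polynomial.map (algebraMap K Ω)) :=
    Polynomial.map_injective _ hKΩ
  have hf' : ∀ i, ∃ Q : K[X], Q.map (algebraMap K Ω) = f i := by
    intro i
    refine MP501976.exists_descent _ (hcf _ ?_)
    intro a ha
    simp only [S, Finset.mem_union, Finset.mem_biUnion, Finset.mem_univ, true_and]
    exact Or.inl (Or.inl (Or.inr ⟨i, ha⟩))
  choose f' hf' using hf'
  obtain ⟨s₁', hs₁'⟩ := MP501976.exists_descent_multiset K s₁ (by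
    intro a ha
    apply hSK
    simp only [S, Finset.mem_union, Multiset.mem_toFinset]
    exact Or.inr ha)
  have hαK : α ∈ K := by
    apply hSK
    simp only [S, Finset.mem_union, Finset.mem_singleton]
    exact Or.inl (Or.inr trivial)
  have hkK : ∀ a : k, f0 a ∈ K := by
    intro a
    have ha : a ∈ IntermediateField.adjoin ℂ (t : Set k) := by rw [ht]; trivial
    refine IntermediateField.adjoin_induction ℂ (p := fun a _ => f0 a ∈ K) ?_ ?_ ?_ ?_ ?_ ha
    · intro b hb
      apply hSK
      simp only [S, Finset.mem_union, Finset.mem_image]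
      exact Or.inl (Or.inl (Or.inl ⟨b, hb, rfl⟩))
    · intro z
      rw [f0.commutes]
      exact K.algebraMap_mem z
    · intro b b' _ _ hb hb'
      rw [map_add]
      exact add_mem hb hb'
    · intro b _ hb
      rw [map_inv₀]
      exact inv_mem hb
    · intro b b' _ _ hb hb'
      rw [map_mul]
      exact mul_mem hb hb'
  let ι : k →ₐ[ℂ] K := f0.codRestrict K.toSubalgebra hkK
  have hι : ∀ a, algebraMap K Ω (ι a) = f0 a := fun a => rfl
  have hιcomp : (algebraMap K Ω).comp (ι : k →+* K) = (f0 : k →+* Ω) := by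
    ext a
    exact hι a
  have hθ : ∀ A : MvPolynomial (Fin N) k,
      (MvPolynomial.aeval f' (MvPolynomial.map (ι : k →+* K) A)).map (algebraMap K Ω) =
        MvPolynomial.aeval f (MvPolynomial.map (f0 : k →+* Ω) A) := by
    intro A
    rw [MP501976.aeval_map, MvPolynomial.map_map, hιcomp]
    simp only [hf']
  have hθ0 : ∀ A : MvPolynomial (Fin N) k,
      algebraMap K Ω ((MvPolynomial.aeval f' (MvPolynomial.map (ι : k →+* K) A)).coeff 0) =
        algebraMap L Ω (MvPolynomial.aeval x A) := by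
    intro A
    rw [← coeff_map, hθ, MP501976.aeval_eval_zero]
    simp only [hf1]
    exact hev A
  have hh1 : ∀ A : MvPolynomial (Fin N) k, MvPolynomial.aeval x A ≠ 0 →
      MvPolynomial.aeval f' (MvPolynomial.map (ι : k →+* K) A) ≠ 0 := by
    intro A hA hA0
    have := hθ0 A
    rw [hA0, coeff_zero, map_zero] at this
    exact hA ((map_eq_zero_iff _ hLΩ).mp this.symm)
  let θ : MvPolynomial (Fin N) k →+* K[X] :=
    (MvPolynomial.aeval f' : MvPolynomial (Fin N) K →ₐ[K] K[X]).toRingHom.comp
      (MvPolynomial.map (ι : k →+* K))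
  have hθdef : ∀ A, θ A = MvPolynomial.aeval f' (MvPolynomial.map (ι : k →+* K) A) :=
    fun A => rfl
  have hh0 : ∀ A : MvPolynomial (Fin N) k, MvPolynomial.aeval x A = 0 →
      MvPolynomial.aeval f' (MvPolynomial.map (ι : k →+* K) A) = 0 := by
    intro A hA
    obtain ⟨s, hs, n, hsn⟩ := MP501976.exists_mul_pow_mem hmin (a := A) hA
    have hθI : Ideal.span (Set.range G) ≤ RingHom.ker θ := by
      rw [Ideal.span_le]
      rintro _ ⟨j, rfl⟩
      refine hmapinj ?_
      rw [Polynomial.map_zero]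
      exact (hθ (G j)).trans (hf3 j)
    have h2 : θ (s * A ^ n) = 0 := hθI hsn
    rw [map_mul, map_pow, mul_eq_zero] at h2
    rcases h2 with h2 | h2
    · exact absurd h2 (hh1 s hs)
    · refine (pow_eq_zero_iff (n := n) ?_).mp h2
      rintro rfl
      rw [pow_zero] at h2
      exact one_ne_zero h2
  -- the elliptic curve
  obtain ⟨E, hE, T, W, hT, hW⟩ := MP501976.exists_kummer (K := K) (o := 2) (d₁ := 4) (d₂ := 0)
    (Or.inl ⟨rfl, rfl, rfl⟩) s₁' 0 (by rw [← hs₁, ← hs₁', Multiset.card_map]) Multiset.card_zero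
  rw [Multiset.map_zero, Multiset.prod_zero, one_pow, mul_one] at hW
  have hprod : ((s₁'.map fun r => (1 - C r * X : K[X])).prod).map (algebraMap K Ω) =
        ((s₁'.map (algebraMap K Ω)).map fun r => (1 - C r * X : Polynomial Ω)).prod := by
    rw [Polynomial.map_multiset_prod, Multiset.map_map, Multiset.map_map]
    congr 1
    refine Multiset.map_congr rfl fun r _ => ?_
    simp
  have hprodT : Polynomial.aeval T ((s₁'.map fun r => (1 - C r * X : K[X])).prod) =
        (s₁'.map fun r => 1 - algebraMap K E.FunctionField r * T).prod := by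
    rw [map_multiset_prod, Multiset.map_map]
    congr 1
    refine Multiset.map_congr rfl fun r _ => ?_
    simp
  have hβ₀ : θ D = C ((⟨α, hαK⟩ : K) ^ 2) * (s₁'.map fun r => (1 - C r * X : K[X])).prod := by
    refine hmapinj ?_
    rw [hθdef, hθ, ← hF, hFg, Polynomial.map_mul, hprod, hs₁', map_C]
    rfl
  have hB : (algebraMap K E.FunctionField ⟨α, hαK⟩ * W) ^ 2 = Polynomial.aeval T (θ D) := by
    rw [hβ₀, map_mul, hprodT, aeval_C, map_pow, ← hW]
    ring
  obtain ⟨φ, hφ1, hφ2⟩ := MP501976.exists_embedding (k := k) (L := L) (K := K)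
    (M := E.FunctionField) x (fun _ : Unit => w) (fun _ => 2) (fun _ => two_pos)
    (fun _ => ⟨_, (Complex.isPrimitiveRoot_exp _ two_ne_zero).map_of_injective
        (f := (algebraMap K E.FunctionField).comp (algebraMap ℂ K)) (RingHom.injective _)⟩)
    (fun _ => D) (fun _ => hw)
    (by rw [Set.range_const]; exact hgen) (ι : k →+* K) f' hh0 hh1 T hT
    (fun _ => algebraMap K E.FunctionField ⟨α, hαK⟩ * W) (fun _ => hB)
  have hess : Algebra.EssFiniteType ℂ K := IntermediateField.essFiniteType_iff.mpr ⟨S, rfl⟩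
  refine ⟨K, inferInstance, inferInstance, hess, E, hE, φ, T, f', algebraMap K Ω, ?_, hT, hφ2,
    hf'⟩
  intro z
  rw [IsScalarTower.algebraMap_apply ℂ k L, hφ1]
  congr 1
  exact ι.commutes z

end IX1
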