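import Pool.Agent.Work.MP_501976_ix.Interface

/-! Block PEF (helper10): facts on the pencil along the curve. -/

universe u v

open Polynomial

namespace IX1

theorem PEF_hom_map {R A : Type u} [CommRing R] [CommRing A] (φ : R →+* A) {N : ℕ}
    (wt : Fin N → ℕ) (d : ℕ) (H : MvPolynomial (Fin N) R) (hH : H.IsWeightedHomogeneous wt d) :
    (MvPolynomial.map φ H).IsWeightedHomogeneous wt d := by
  intro e he
  rw [MvPolynomial.coeff_map] at he
  refine hH ?_
  intro h
  apply he
  rw [h, map_zero]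

theorem PEF_wtd {A : Type u} [CommRing A] {N : ℕ} (wt : Fin N → ℕ) (d : ℕ)
    (H : MvPolynomial (Fin N) A) (hH : H.IsWeightedHomogeneous wt d) :
    MvPolynomial.weightedTotalDegree (fun i => 2 * wt i) H ≤ 2 * d := by
  rw [MvPolynomial.weightedTotalDegree]
  refine Finset.sup_le fun e he => ?_
  have h1 : Finsupp.weight wt e = d := hH (MvPolynomial.mem_support_iff.mp he)
  have h2 : Finsupp.weight (fun i => 2 * wt i) e = 2 * Finsupp.weight wt e := by
    rw [Finsupp.weight_apply, Finsupp.weight_apply, Finsupp.sum, Finsupp.sum, Finset.mul_sum]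
    refine Finset.sum_congr rfl fun i _ => ?_
    simp only [smul_eq_mul]
    ring
  rw [h2, h1]

theorem PEF_map_G0 {n c : ℕ} {A B : Type u} [CommRing A] [CommRing B] (φ : A →+* B)
    (wt : Fin (n + 3) → ℕ) (π : Fin (n + 3) → Fin c) (j : Fin c) :
    MvPolynomial.map φ (G0 A wt π j) = G0 B wt π j := by
  rw [G0, G0, map_add, map_sum]
  congr 1
  · refine Finset.sum_congr rfl fun i _ => ?_
    simp only [map_mul, map_pow, MvPolynomial.map_X]
  · split_ifs
    · simp only [map_mul, map_pow, map_sub, MvPolynomial.map_X]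
    · exact map_zero _

theorem PEF_map_pen {R A B : Type u} [CommRing R] [CommRing A] [CommRing B] [Algebra R A]
    [Algebra R B] {n c : ℕ} (φ : A →ₐ[R] B) (wt : Fin (n + 3) → ℕ) (π : Fin (n + 3) → Fin c)
    (G : Fin c → MvPolynomial (Fin (n + 3)) R) (s : A) (j : Fin c) :
    MvPolynomial.map (φ : A →+* B) (pen wt π G s j) = pen wt π G (φ s) j := by
  rw [pen, pen, map_add, map_mul, map_mul, PEF_map_G0, MvPolynomial.map_C, MvPolynomial.map_C,
    MvPolynomial.map_map, AlgHom.comp_algebraMap, map_sub, map_one]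
  rfl

theorem PEF_eval_G0 {n c : ℕ} {A : Type u} [CommRing A] (wt : Fin (n + 3) → ℕ)
    (π : Fin (n + 3) → Fin c) (j : Fin c) (x : Fin (n + 3) → A) (hx : ∀ i, i ≠ 0 → x i = 0) :
    MvPolynomial.eval x (G0 A wt π j) = 0 := by
  rw [G0, map_add, map_sum]
  have h1 : (1 : Fin (n + 3)) ≠ 0 := by
    intro h
    have := congrArg Fin.val h
    simp at this
  have h2 : (2 : Fin (n + 3)) ≠ 0 := by
    intro h
    have h3 : (2 : Fin (n + 3)).val = 0 := by
      rw [h]
      rfl
    have h4 : (2 : Fin (n + 3)).val = 2 := Nat.mod_eq_of_lt (show 2 < n + 3 by omega)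
    omega
  rw [Finset.sum_eq_zero, zero_add]
  · split_ifs
    · simp only [map_mul, map_pow, map_sub, MvPolynomial.eval_X, hx 1 h1, hx 2 h2]
      ring
    · exact map_zero _
  · intro i hi
    rw [Finset.mem_filter] at hi
    have hi0 : i ≠ 0 := by
      intro h
      have := hi.2.1
      rw [h] at this
      simp at this
    rw [map_mul, map_mul, MvPolynomial.eval_X, hx i hi0, zero_mul, zero_mul]

theorem p_PEF (hGHM : Stmt_GHM.{u}) (hCVF : Stmt_CVF.{u}) : Stmt_PEF.{u} := by
  intro R A _ _ _ n c wt π h0 h1 h2 hπ G hG hG0 s y j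
  obtain ⟨c1, c2, c3, -⟩ := hCVF A A n wt y h0 h1 h2
  refine ⟨?_, ?_, ?_⟩
  · refine MP501976.aeval_natDegree_le_weighted (fun i => 2 * wt i) _ c1 _ ?_
    refine PEF_wtd wt _ _ ?_
    have e1 : (MvPolynomial.C (1 - s) * G0 A wt π j).IsWeightedHomogeneous wt (dg wt π j) := by
      have := (MvPolynomial.isWeightedHomogeneous_C wt (1 - s)).mul (hGHM A n c wt π h0 h1 h2 hπ j)
      rwa [zero_add] at this
    have e2 : (MvPolynomial.C s * MvPolynomial.map (algebraMap R A) (G j)).IsWeightedHomogeneous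
        wt (dg wt π j) := by
      have := (MvPolynomial.isWeightedHomogeneous_C wt s).mul
        (PEF_hom_map (algebraMap R A) wt _ _ (hG j))
      rwa [zero_add] at this
    exact e1.add e2
  · rw [MP501976.aeval_eval_zero]
    have hx : ∀ i, i ≠ 0 → (cv wt y i).coeff 0 = 0 := c3
    have hp : (fun i => (cv wt y i).coeff 0) = fun i => algebraMap R A ((Pi.single 0 1 : Fin (n + 3) → R) i) := by
      funext i
      by_cases hi : i = 0
      · subst hi
        rw [c2, Pi.single_eq_same, map_one]
      · rw [c3 i hi, Pi.single_eq_of_ne hi, map_zero]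
    rw [pen, map_add, map_mul, map_mul, PEF_eval_G0 wt π j _ hx, mul_zero, zero_add, hp]
    have : MvPolynomial.eval (fun i => algebraMap R A ((Pi.single 0 1 : Fin (n + 3) → R) i))
        (MvPolynomial.map (algebraMap R A) (G j)) =
        algebraMap R A (MvPolynomial.eval (Pi.single 0 1) (G j)) := by
      rw [MvPolynomial.eval_map]
      exact (MvPolynomial.eval₂_comp_left (algebraMap R A) (RingHom.id R) _ (G j)).symm
    rw [this, hG0 j, map_zero, mul_zero]
  · intro B _ _ φ
    obtain ⟨-, -, -, c4⟩ := hCVF A B n wt y h0 h1 h2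
    rw [MP501976.aeval_map, PEF_map_pen]
    congr 2
    funext i
    exact c4 (φ : A →+* B) i

end IX1
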