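import Pool.Agent.Work.MP_501976_ix.Interface

/-!
# Block RDU: reduction of a curve with coefficients in the valuation ring
-/

universe u v

open Polynomial

namespace IX1

theorem RDU_lift {F : Type u} [Field F] (O : ValuationSubring F) (f : F[X])
    (hf : ∀ l, f.coeff l ∈ O) :
    ∃ h : O[X], (∀ l, h.coeff l = ⟨f.coeff l, hf l⟩) ∧ h.map (algebraMap O F) = f := by
  obtain ⟨h, hh⟩ : ∃ h : O[X], h = ∑ l ∈ Finset.range (f.natDegree + 1),
      Polynomial.monomial l (⟨f.coeff l, hf l⟩ : O) := ⟨_, rfl⟩
  have hc : ∀ l, h.coeff l = ⟨f.coeff l, hf l⟩ := by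
    intro l
    rw [hh, Polynomial.finsetSum_coeff]
    simp only [Polynomial.coeff_monomial]
    by_cases hl : l ∈ Finset.range (f.natDegree + 1)
    · rw [Finset.sum_ite_eq_of_mem' _ _ _ hl]
    · rw [Finset.sum_ite_eq' (Finset.range (f.natDegree + 1)) l, if_neg hl]
      apply Subtype.ext
      rw [Finset.mem_range, not_lt] at hl
      exact (Polynomial.coeff_eq_zero_of_natDegree_lt (by omega)).symm
  refine ⟨h, hc, ?_⟩
  ext l
  rw [Polynomial.coeff_map, hc l]
  rfl

theorem p_RDU : Stmt_RDU.{u} := by
  intro F _ O N f hf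
  choose h hh1 hh2 using fun i => RDU_lift O (f i) (hf i)
  refine ⟨fun i => (h i).map (IsLocalRing.residue O), ?_, ?_⟩
  · intro i l
    rw [Polynomial.coeff_map, hh1 i l]
  · intro G hG
    have h1 := MP501976.aeval_map (algebraMap O F) h G
    have h2 : (fun i => (h i).map (algebraMap O F)) = f := funext hh2
    rw [h2, hG] at h1
    have hinj : Function.Injective (algebraMap O F) := Subtype.val_injective
    have h3 : MvPolynomial.aeval h G = 0 :=
      Polynomial.map_injective _ hinj (by rw [h1, Polynomial.map_zero])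
    have h4 := MP501976.aeval_map (IsLocalRing.residue O) h G
    rw [h3, Polynomial.map_zero] at h4
    exact h4.symm

end IX1
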