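import Pool.Agent.Work.MP_501976_ix.Interface

/-! Block SPC of `IX1` (MP_501976_ag, THEOREM IX): specialisation of curves (helper86). -/

universe u

open Polynomial

namespace IX1

theorem SPC_comp {F : Type u} [Field F] {N : ℕ} (f : Fin N → F[X]) (q : F[X])
    (P : MvPolynomial (Fin N) F) :
    MvPolynomial.aeval (fun i => (f i).comp q) P = (MvPolynomial.aeval f P).comp q := by
  have h1 : ∀ p : F[X], p.comp q = Polynomial.aeval q p := by
    intro p
    rw [Polynomial.comp, Polynomial.aeval_def, Polynomial.algebraMap_eq]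
  rw [h1, MvPolynomial.comp_aeval_apply]
  simp only [h1]

theorem SPC_zero_nonunits {F : Type u} [Field F] (O : ValuationSubring F) :
    (0 : F) ∈ O.nonunits := by
  rw [ValuationSubring.mem_nonunits_iff]
  simp

theorem SPC_residue_ne {F : Type u} [Field F] (O : ValuationSubring F) (x : F) (hx : x ∈ O)
    (hn : x ∉ O.nonunits) : IsLocalRing.residue O ⟨x, hx⟩ ≠ 0 := by
  intro h
  apply hn
  rw [ValuationSubring.mem_nonunits_iff_exists_mem_maximalIdeal]
  exact ⟨hx, (IsLocalRing.residue_eq_zero_iff _).mp h⟩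

theorem SPC_charZero {F : Type u} [Field F] (O : ValuationSubring F)
    [CharZero (IsLocalRing.ResidueField O)] : CharZero F := by
  constructor
  intro m n h
  have h1 : (m : O) = (n : O) := by
    apply Subtype.ext
    push_cast
    exact h
  have h2 : ((m : ℕ) : IsLocalRing.ResidueField O) = (n : IsLocalRing.ResidueField O) := by
    have h3 := congrArg (IsLocalRing.residue O) h1
    simpa using h3
  exact Nat.cast_injective h2

theorem SPC_mul_pow {F : Type u} [Field F] (O : ValuationSubring F) (x η : F)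
    (hη : O.valuation η = 1) (hx : x ∈ O.nonunits) (l : ℕ) : x * η ^ l ∈ O.nonunits := by
  rw [ValuationSubring.mem_nonunits_iff] at hx ⊢
  rw [map_mul, map_pow, hη, one_pow, mul_one]
  exact hx

theorem p_SPC (hNRM : Stmt_NRM.{u}) (hRDU : Stmt_RDU.{u}) (hORD : Stmt_ORD.{u})
    (hZRD : Stmt_ZRD.{u}) : Stmt_SPC.{u} := by
  intro F _ _ O _ N wt hwt0 c G d hG f a hdeg hf0 hfc hex heq
  classical
  -- the first normalisation
  let M : ℕ := Finset.univ.sup (fun i => (f i).natDegree)
  have hM : ∀ i, (f i).natDegree ≤ M := fun i =>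
    Finset.le_sup (f := fun i => (f i).natDegree) (Finset.mem_univ i)
  let fam : Option (Fin (N + 1) × Fin (M + 1)) → F := fun x =>
    match x with
    | none => a
    | some y => if y.1 ≠ 0 then (f y.1).coeff ((y.2 : ℕ) + 1) else 0
  let wf : Option (Fin (N + 1) × Fin (M + 1)) → ℕ := fun x =>
    match x with
    | none => 2
    | some y => (y.2 : ℕ) + 1
  obtain ⟨i₀, hi₀, hfi₀⟩ := hex
  have hcoeff : ∃ l, 1 ≤ l ∧ l ≤ M ∧ (f i₀).coeff l ≠ 0 := by
    refine ⟨(f i₀).natDegree, ?_, hM i₀, ?_⟩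
    · by_contra hlt
      have h0 : (f i₀).natDegree = 0 := by omega
      apply hfi₀
      rw [Polynomial.eq_C_of_natDegree_eq_zero h0, hfc i₀ hi₀, map_zero]
    · rw [Polynomial.coeff_natDegree]
      exact Polynomial.leadingCoeff_ne_zero.mpr hfi₀
  obtain ⟨l₀, hl₀1, hl₀M, hl₀⟩ := hcoeff
  obtain ⟨r, hr0, hrO, x₀, hx₀⟩ := hNRM F O (Option (Fin (N + 1) × Fin (M + 1))) fam wf
    (by
      intro x
      cases x with
      | none => exact Nat.zero_lt_succ 1
      | some y => exact Nat.succ_pos _)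
    ⟨some (i₀, ⟨l₀ - 1, by omega⟩), by
      show (if i₀ ≠ 0 then (f i₀).coeff ((l₀ - 1) + 1) else 0) ≠ 0
      rw [if_pos hi₀, Nat.sub_add_cancel hl₀1]
      exact hl₀⟩
  have haO : a / r ^ 2 ∈ O := hrO none
  have hcO : ∀ i, i ≠ 0 → ∀ l, (f i).coeff l / r ^ l ∈ O := by
    intro i hi l
    rcases Nat.eq_zero_or_pos l with hl | hl
    · rw [hl, hfc i hi, zero_div]
      exact O.zero_mem
    · by_cases hlM : l ≤ M
      · have h1 := hrO (some (i, ⟨l - 1, by omega⟩))
        have h2 : (if i ≠ 0 then (f i).coeff ((l - 1) + 1) else 0) / r ^ ((l - 1) + 1) ∈ O := h1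
        rw [if_pos hi, Nat.sub_add_cancel hl] at h2
        exact h2
      · have h1 : (f i).coeff l = 0 :=
          Polynomial.coeff_eq_zero_of_natDegree_lt (by have := hM i; omega)
        rw [h1, zero_div]
        exact O.zero_mem
  have hf0c : ∀ l, (f 0).coeff l = if l = 0 then 1 else if l = 2 then a else 0 := by
    intro l
    rw [hf0, Polynomial.coeff_add, Polynomial.coeff_one, Polynomial.coeff_C_mul,
      Polynomial.coeff_X_pow]
    rcases Nat.eq_zero_or_pos l with hl | hl
    · subst hl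
      simp
    · rw [if_neg (by omega : ¬ l = 0), if_neg (by omega : ¬ l = 0), zero_add]
      by_cases h2 : l = 2
      · rw [if_pos h2, if_pos h2, mul_one]
      · rw [if_neg h2, if_neg h2, mul_zero]
  have hdegc : ∀ (b : F) (i : Fin (N + 1)), ((f i).comp (C b * X)).natDegree ≤ 2 * wt i := by
    intro b i
    rw [Polynomial.natDegree_le_iff_coeff_eq_zero]
    intro l hl
    rw [Polynomial.comp_C_mul_X_coeff,
      Polynomial.coeff_eq_zero_of_natDegree_lt (lt_of_le_of_lt (hdeg i) hl), zero_mul]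
  by_cases hcase : ∃ i, i ≠ 0 ∧ ∃ l, (f i).coeff l / r ^ l ∉ O.nonunits
  · -- the reduction is not constant
    obtain ⟨i₁, hi₁, l₁, hl₁⟩ := hcase
    have hcf : ∀ i l, ((f i).comp (C r⁻¹ * X)).coeff l ∈ O := by
      intro i l
      rw [Polynomial.comp_C_mul_X_coeff, inv_pow, ← div_eq_mul_inv]
      by_cases hi : i = 0
      · subst hi
        rw [hf0c]
        by_cases h0 : l = 0
        · rw [if_pos h0, h0, pow_zero, div_one]
          exact O.one_mem
        · rw [if_neg h0]
          by_cases h2 : l = 2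
          · rw [if_pos h2, h2]
            exact haO
          · rw [if_neg h2, zero_div]
            exact O.zero_mem
      · exact hcO i hi l
    obtain ⟨g, hg, hgeq⟩ := hRDU F O (N + 1) (fun i => (f i).comp (C r⁻¹ * X)) hcf
    have hz : ∀ i l, ((f i).comp (C r⁻¹ * X)).coeff l = 0 → (g i).coeff l = 0 := by
      intro i l h
      rw [hg i l]
      have : (⟨((f i).comp (C r⁻¹ * X)).coeff l, hcf i l⟩ : O) = 0 := Subtype.ext h
      rw [this, map_zero]
    refine ⟨g, ?_, ?_, ?_, ⟨i₁, hi₁, ?_⟩, ?_⟩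
    · intro i
      rw [Polynomial.natDegree_le_iff_coeff_eq_zero]
      intro l hl
      exact hz i l (Polynomial.coeff_eq_zero_of_natDegree_lt (lt_of_le_of_lt (hdegc r⁻¹ i) hl))
    · rw [hg 0 0]
      have : (⟨((f 0).comp (C r⁻¹ * X)).coeff 0, hcf 0 0⟩ : O) = 1 := by
        apply Subtype.ext
        show ((f 0).comp (C r⁻¹ * X)).coeff 0 = 1
        rw [Polynomial.comp_C_mul_X_coeff, hf0c, if_pos rfl, pow_zero, mul_one]
      rw [this, map_one]
    · intro i hi
      apply hz i 0
      rw [Polynomial.comp_C_mul_X_coeff, hfc i hi, zero_mul]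
    · intro h
      have h1 : (g i₁).coeff l₁ = 0 := by rw [h, Polynomial.coeff_zero]
      rw [hg i₁ l₁] at h1
      apply SPC_residue_ne O _ _ _ h1
      rw [Polynomial.comp_C_mul_X_coeff, inv_pow, ← div_eq_mul_inv]
      exact hl₁
    · intro j
      apply hgeq
      rw [SPC_comp, heq j, Polynomial.zero_comp]
  · -- the reduction is constant: one zoom
    have hnon : ∀ i, i ≠ 0 → ∀ l, (f i).coeff l / r ^ l ∈ O.nonunits := by
      intro i hi l
      by_contra h
      exact hcase ⟨i, hi, l, h⟩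
    have hβ : a / r ^ 2 ∉ O.nonunits := by
      cases x₀ with
      | none => exact hx₀
      | some y =>
        exfalso
        apply hx₀
        show (if y.1 ≠ 0 then (f y.1).coeff ((y.2 : ℕ) + 1) else 0) / r ^ ((y.2 : ℕ) + 1) ∈
          O.nonunits
        by_cases hy : y.1 ≠ 0
        · rw [if_pos hy]
          exact hnon _ hy _
        · rw [if_neg hy, zero_div]
          exact SPC_zero_nonunits O
    have hβv : O.valuation (a / r ^ 2) = 1 := by
      apply le_antisymm
      · exact (ValuationSubring.valuation_le_one_iff O _).mpr haO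
      · rw [ValuationSubring.mem_nonunits_iff] at hβ
        exact not_lt.mp hβ
    have hβ0 : a / r ^ 2 ≠ 0 := by
      intro h
      rw [h, map_zero] at hβv
      exact zero_ne_one hβv
    obtain ⟨η, hη⟩ := IsAlgClosed.exists_pow_nat_eq (-(a / r ^ 2)⁻¹) (n := 2) (by norm_num)
    have hηv : O.valuation η = 1 := by
      have h1 : O.valuation η ^ 2 = 1 := by
        rw [← map_pow, hη, Valuation.map_neg, map_inv₀, hβv, inv_one]
      exact (pow_eq_one_iff_of_nonneg zero_le' (by norm_num)).mp h1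
    have hη0 : η ≠ 0 := by
      intro h
      rw [h, map_zero] at hηv
      exact zero_ne_one hηv
    have hb0 : η / r ≠ 0 := div_ne_zero hη0 hr0
    have hcoef : ∀ i l, ((f i).comp (C (η / r) * X)).coeff l = (f i).coeff l / r ^ l * η ^ l := by
      intro i l
      rw [Polynomial.comp_C_mul_X_coeff, div_pow]
      ring
    have hF0 : CharZero F := SPC_charZero O
    have hne : (f i₀).comp (C (η / r) * X) ≠ 0 := by
      intro h
      have h1 : ((f i₀).comp (C (η / r) * X)).coeff l₀ = 0 := by rw [h, Polynomial.coeff_zero]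
      rw [Polynomial.comp_C_mul_X_coeff] at h1
      exact (mul_ne_zero hl₀ (pow_ne_zero _ hb0)) h1
    have hc0 : ∀ i, i ≠ 0 → ((f i).comp (C (η / r) * X)).coeff 0 = 0 := by
      intro i hi
      rw [Polynomial.comp_C_mul_X_coeff, hfc i hi, zero_mul]
    obtain ⟨ε, hε, l₂, hl₂, hex₂⟩ := hORD F (wt i₀) ((f i₀).comp (C (η / r) * X))
      (hdegc _ i₀) (hc0 i₀ hi₀) hne
    -- the second normalisation
    let W : ℕ := Finset.univ.sup wt
    have hW : ∀ i, wt i ≤ W := fun i => Finset.le_sup (f := wt) (Finset.mem_univ i)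
    let fam2 : Fin (N + 1) × Fin (W + 1) → F := fun y =>
      if y.1 ≠ 0 ∧ (y.2 : ℕ) < wt y.1 then ex ε ((f y.1).comp (C (η / r) * X)) y.2 else 0
    let wf2 : Fin (N + 1) × Fin (W + 1) → ℕ := fun y =>
      if (y.2 : ℕ) < wt y.1 then wt y.1 - y.2 else 1
    obtain ⟨δ, hδ0, hδO, x₁, hx₁⟩ := hNRM F O (Fin (N + 1) × Fin (W + 1)) fam2 wf2
      (by
        intro y
        show 0 < if (y.2 : ℕ) < wt y.1 then wt y.1 - y.2 else 1
        split_ifs with h
        · omega
        · exact Nat.one_pos)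
      ⟨(i₀, ⟨l₂, by have := hW i₀; omega⟩), by
        show (if i₀ ≠ 0 ∧ l₂ < wt i₀ then ex ε ((f i₀).comp (C (η / r) * X)) l₂ else 0) ≠ 0
        rw [if_pos ⟨hi₀, hl₂⟩]
        exact hex₂⟩
    apply hZRD F O N wt hwt0 c G d hG (fun i => (f i).comp (C (η / r) * X)) (fun i => hdegc _ i)
      ?_ ?_ ?_ ε δ hε hδ0 ?_ ?_
    · show (f 0).comp (C (η / r) * X) = 1 - X ^ 2
      ext l
      rw [hcoef, hf0c, Polynomial.coeff_sub, Polynomial.coeff_one, Polynomial.coeff_X_pow]
      by_cases h0 : l = 0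
      · subst h0
        simp
      · rw [if_neg h0, if_neg h0]
        by_cases h2 : l = 2
        · subst h2
          rw [if_pos rfl, if_pos rfl, hη, mul_neg, mul_inv_cancel₀ hβ0, zero_sub]
        · rw [if_neg h2, if_neg h2, zero_div, zero_mul, sub_zero]
    · intro i hi l
      show ((f i).comp (C (η / r) * X)).coeff l ∈ O.nonunits
      rw [hcoef]
      exact SPC_mul_pow O _ η hηv (hnon i hi l) l
    · intro j
      rw [SPC_comp, heq j, Polynomial.zero_comp]
    · intro i hi l hl
      have h1 := hδO (i, ⟨l, by have := hW i; omega⟩)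
      have h2 : (if i ≠ 0 ∧ l < wt i then ex ε ((f i).comp (C (η / r) * X)) l else 0) /
          δ ^ (if l < wt i then wt i - l else 1) ∈ O := h1
      rw [if_pos ⟨hi, hl⟩, if_pos hl] at h2
      exact h2
    · have h1 : (if x₁.1 ≠ 0 ∧ (x₁.2 : ℕ) < wt x₁.1 then
          ex ε ((f x₁.1).comp (C (η / r) * X)) x₁.2 else 0) /
          δ ^ (if (x₁.2 : ℕ) < wt x₁.1 then wt x₁.1 - x₁.2 else 1) ∉ O.nonunits := hx₁
      by_cases hx : x₁.1 ≠ 0 ∧ (x₁.2 : ℕ) < wt x₁.1
      · rw [if_pos hx, if_pos hx.2] at h1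
        exact ⟨x₁.1, hx.1, x₁.2, hx.2, h1⟩
      · rw [if_neg hx, zero_div] at h1
        exact absurd (SPC_zero_nonunits O) h1

end IX1
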