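import Pool.Agent.Work.MP_501976_ix.Interface

/-! # Block TRA: an arbitrary point -/

set_option autoImplicit false

universe u v

open Polynomial

namespace IX1

theorem TRA_bind {R σ τ : Type*} [CommRing R] (wt : σ → ℕ) (wt' : τ → ℕ)
    (T : σ → MvPolynomial τ R) (hT : ∀ i, (T i).IsWeightedHomogeneous wt' (wt i))
    (G : MvPolynomial σ R) (d : ℕ) (hG : G.IsWeightedHomogeneous wt d) :
    (MvPolynomial.bind₁ T G).IsWeightedHomogeneous wt' d := by
  classical
  rw [MvPolynomial.bind₁, MvPolynomial.aeval_def, MvPolynomial.eval₂_eq]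
  refine MvPolynomial.IsWeightedHomogeneous.sum _ _ _ fun e he => ?_
  have h1 : Finsupp.weight wt e = d := hG (MvPolynomial.mem_support_iff.1 he)
  have h2 : (∏ i ∈ e.support, T i ^ e i).IsWeightedHomogeneous wt'
      (∑ i ∈ e.support, e i • wt i) :=
    MvPolynomial.IsWeightedHomogeneous.prod _ _ _ fun i _ => (hT i).pow (e i)
  have h3 := (MvPolynomial.isWeightedHomogeneous_C wt' (G.coeff e)).mul h2
  rw [zero_add] at h3
  have h4 : ∑ i ∈ e.support, e i • wt i = d := by
    rw [← h1, Finsupp.weight_apply]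
    rfl
  rw [h4] at h3
  exact h3

theorem TRA_ev {R σ : Type*} [CommRing R] (x : σ → R) (q : MvPolynomial σ R) :
    MvPolynomial.aeval x q = MvPolynomial.eval x q := by
  rw [← MvPolynomial.coe_aeval_eq_eval]
  rfl

theorem TRA_coeff {R : Type*} [CommRing R] (f : R[X]) (m : ℕ) :
    (f ^ m).coeff 0 = f.coeff 0 ^ m := by
  rw [coeff_zero_eq_eval_zero, coeff_zero_eq_eval_zero, eval_pow]

theorem p_TRA (hCUR : Stmt_CUR.{u}) : Stmt_TRA.{u} := by
  intro Ω _ _ n c wt π w0 w1 w2 hπ G hG p hp hpG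
  classical
  let T : Fin (n + 3) → MvPolynomial (Fin (n + 3)) Ω := fun i =>
    if i = 0 then MvPolynomial.C (p 0) * MvPolynomial.X 0
    else MvPolynomial.C (p 0 ^ wt i) * MvPolynomial.X i +
      MvPolynomial.C (p i) * MvPolynomial.X 0 ^ wt i
  have hT0 : T 0 = MvPolynomial.C (p 0) * MvPolynomial.X 0 := if_pos rfl
  have hTi : ∀ i, i ≠ 0 → T i = MvPolynomial.C (p 0 ^ wt i) * MvPolynomial.X i +
      MvPolynomial.C (p i) * MvPolynomial.X 0 ^ wt i := fun i hi => if_neg hi
  have hX : ∀ i : Fin (n + 3), (MvPolynomial.X i : MvPolynomial (Fin (n + 3)) Ω).IsWeightedHomogeneous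
      wt (wt i) := fun i => MvPolynomial.isWeightedHomogeneous_X Ω wt i
  have hT : ∀ i, (T i).IsWeightedHomogeneous wt (wt i) := by
    intro i
    by_cases hi : i = 0
    · subst hi
      rw [hT0]
      have h1 := (MvPolynomial.isWeightedHomogeneous_C wt (p 0)).mul (hX 0)
      rwa [zero_add] at h1
    · rw [hTi i hi]
      have h1 := (MvPolynomial.isWeightedHomogeneous_C wt (p 0 ^ wt i)).mul (hX i)
      have h2 := (MvPolynomial.isWeightedHomogeneous_C wt (p i)).mul ((hX 0).pow (wt i))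
      rw [zero_add] at h1 h2
      rw [w0, smul_eq_mul, mul_one] at h2
      exact h1.add h2
  have hev : ∀ i, MvPolynomial.eval (Pi.single 0 1) (T i) = p i := by
    intro i
    by_cases hi : i = 0
    · subst hi
      rw [hT0]
      simp
    · rw [hTi i hi]
      simp [hi]
  obtain ⟨Ω', iF, iA, iAlg, g, g1, g2, g3, ⟨i₁, hi₁, hgi₁⟩, g5⟩ := hCUR Ω n c wt π w0 w1 w2 hπ
    (fun j => MvPolynomial.bind₁ T (G j)) (fun j => TRA_bind wt wt T hT (G j) _ (hG j)) (by
      intro j
      have h1 : MvPolynomial.eval (Pi.single 0 1) (MvPolynomial.bind₁ T (G j)) =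
          MvPolynomial.aeval (Pi.single 0 1 : Fin (n + 3) → Ω) (MvPolynomial.bind₁ T (G j)) :=
        (TRA_ev _ _).symm
      rw [h1, MvPolynomial.aeval_bind₁]
      have h2 : (fun i => MvPolynomial.aeval (Pi.single 0 1 : Fin (n + 3) → Ω) (T i)) = p := by
        funext i
        rw [TRA_ev]
        exact hev i
      rw [h2, TRA_ev]
      exact hpG j)
  let a : Ω →+* Ω' := algebraMap Ω Ω'
  let f : Fin (n + 3) → Ω'[X] := fun i =>
    if i = 0 then C (a (p 0)) * g 0 else C (a (p 0 ^ wt i)) * g i + C (a (p i)) * g 0 ^ wt i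
  have hf0 : f 0 = C (a (p 0)) * g 0 := if_pos rfl
  have hfi : ∀ i, i ≠ 0 → f i = C (a (p 0 ^ wt i)) * g i + C (a (p i)) * g 0 ^ wt i :=
    fun i hi => if_neg hi
  refine ⟨Ω', iF, iA, iAlg, f, ?_, ?_, ?_, ?_⟩
  · intro i
    by_cases hi : i = 0
    · subst hi
      rw [hf0]
      exact (natDegree_C_mul_le _ _).trans (g1 0)
    · rw [hfi i hi]
      refine (natDegree_add_le _ _).trans (max_le ?_ ?_)
      · exact (natDegree_C_mul_le _ _).trans (g1 i)
      · refine (natDegree_C_mul_le _ _).trans ?_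
        refine natDegree_pow_le.trans ?_
        have h1 := g1 0
        rw [w0] at h1
        calc wt i * (g 0).natDegree ≤ wt i * (2 * 1) := Nat.mul_le_mul_left _ h1
          _ = 2 * wt i := by ring
  · intro i
    by_cases hi : i = 0
    · subst hi
      rw [hf0, coeff_C_mul, g2, mul_one]
    · rw [hfi i hi, coeff_add, coeff_C_mul, coeff_C_mul, g3 i hi, TRA_coeff, g2, one_pow,
        mul_zero, zero_add, mul_one]
  · refine ⟨i₁, fun b hb => ?_⟩
    rw [hfi i₁ hi₁, hf0, mul_pow] at hb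
    have h0 := congrArg (fun q : Ω'[X] => q.coeff 0) hb
    simp only [coeff_add, coeff_C_mul, ← C_pow, g3 i₁ hi₁, TRA_coeff, g2, one_pow, mul_zero,
      zero_add, mul_one] at h0
    have h1 : C (a (p 0 ^ wt i₁)) * g i₁ = 0 := by
      rw [h0] at hb
      have h2 : C (b * a (p 0) ^ wt i₁) * g 0 ^ wt i₁ =
          C b * (C (a (p 0)) ^ wt i₁ * g 0 ^ wt i₁) := by
        rw [C_mul, C_pow]
        ring
      rw [← h2] at hb
      exact add_eq_right.1 hb
    rcases mul_eq_zero.1 h1 with h2 | h2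
    · rw [C_eq_zero, map_pow] at h2
      have h3 : a (p 0) = 0 := by
        by_contra h3
        exact pow_ne_zero _ h3 h2
      exact hp ((map_eq_zero a).1 h3)
    · exact hgi₁ h2
  · intro j
    have h1 := g5 j
    rw [MvPolynomial.map_bind₁, MvPolynomial.aeval_bind₁] at h1
    have h2 : (fun i => MvPolynomial.aeval g (MvPolynomial.map (algebraMap Ω Ω') (T i))) = f := by
      funext i
      by_cases hi : i = 0
      · subst hi
        rw [hT0, hf0]
        simp [a]
      · rw [hTi i hi, hfi i hi]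
        simp [a]
    rw [h2] at h1
    exact h1

end IX1
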