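import Pool.Agent.Work.MP_501976_ix.Interface

/-!
# Block VAL: a valuation ring in which `s - 1` is not a unit
-/

universe u v

open Polynomial

namespace IX1

theorem p_VAL : Stmt_VAL.{u} := by
  intro Ω F _ _ _ s hs
  obtain ⟨A, hA⟩ : ∃ A : Subring F, A = (Polynomial.aeval s : Polynomial Ω →ₐ[Ω] F).toRingHom.range :=
    ⟨_, rfl⟩
  have hmem : ∀ P : Polynomial Ω, Polynomial.aeval s P ∈ A := by
    intro P
    rw [hA]
    exact ⟨P, rfl⟩
  have hsA : s ∈ A := by
    have := hmem X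
    rwa [Polynomial.aeval_X] at this
  have hs1 : s - 1 ∈ A := A.sub_mem hsA A.one_mem
  obtain ⟨I, hI⟩ : ∃ I : Ideal A, I = Ideal.span {⟨s - 1, hs1⟩} := ⟨_, rfl⟩
  have hIt : I ≠ ⊤ := by
    intro h
    have h1 : (1 : A) ∈ I := by
      rw [h]
      trivial
    rw [hI, Ideal.mem_span_singleton] at h1
    obtain ⟨b, hb⟩ := h1
    have h2 : (1 : F) = (s - 1) * (b : F) := congrArg Subtype.val hb
    have hbA : ∀ y ∈ A, ∃ P : Polynomial Ω, Polynomial.aeval s P = y := by
      intro y hy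
      rw [hA] at hy
      obtain ⟨P, hP⟩ := hy
      exact ⟨P, hP⟩
    obtain ⟨P, hP'⟩ := hbA (b : F) b.2
    have h3 : Polynomial.aeval s ((X - 1) * P - 1 : Polynomial Ω) = 0 := by
      rw [map_sub, map_mul, map_sub, map_one, Polynomial.aeval_X, hP', ← h2, sub_self]
    have h4 : ((X - 1) * P - 1 : Polynomial Ω) = 0 := by
      by_contra hne
      exact hs ⟨_, hne, h3⟩
    have h5 := congrArg (Polynomial.eval 1) h4
    simp at h5
  obtain ⟨O, hO1, hO2⟩ := Ideal.image_subset_nonunits_valuationSubring I hIt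
  refine ⟨O, fun a => hO1 ?_, hO1 hsA, hO2 ⟨⟨s - 1, hs1⟩, ?_, rfl⟩⟩
  · have := hmem (C a)
    rwa [Polynomial.aeval_C] at this
  · rw [hI]
    exact Ideal.mem_span_singleton_self _

end IX1
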