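import Pool.Agent.Work.MP_501976_ix.Interface

set_option autoImplicit false

universe u v

open Polynomial

namespace IX1

variable {n c : ℕ}

/-- the sum over the pairs is zero if `π 1 = j` and `m < 4` -/
lemma WIN_small (Ω : Type u) [Field Ω] (wt : Fin (n + 3) → ℕ) (π : Fin (n + 3) → Fin c)
    (h : ∀ i : Fin (n + 3), 3 ≤ i.val → π i = π 1 → 2 ≤ kap wt π i) (m : ℕ) (hm : m < 4) :
    (∑ a : (Σ i : {i : Fin (n + 3) // 3 ≤ i.val}, Fin (2 * wt i)),
      if π a.1.1 = π 1 ∧ 2 * kap wt π a.1.1 + (a.2 : ℕ) = m then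
        (MvPolynomial.X (some (Sum.inr a)) : MvPolynomial (Option (UU wt)) Ω) else 0) = 0 := by
  refine Finset.sum_eq_zero fun a _ => ?_
  rw [if_neg]
  rintro ⟨h1, h2⟩
  have := h a.1.1 a.1.2 h1
  omega

/-- the sum over the pairs has only one term -/
lemma WIN_one (Ω : Type u) [Field Ω] (wt : Fin (n + 3) → ℕ) (π : Fin (n + 3) → Fin c)
    (h : ∀ i i' : Fin (n + 3), 3 ≤ i.val → i < i' → π i = π i' → kap wt π i + wt i ≤ kap wt π i')
    (b : Σ i : {i : Fin (n + 3) // 3 ≤ i.val}, Fin (2 * wt i)) :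
    (∑ a : (Σ i : {i : Fin (n + 3) // 3 ≤ i.val}, Fin (2 * wt i)),
      if π a.1.1 = π b.1.1 ∧ 2 * kap wt π a.1.1 + (a.2 : ℕ) = 2 * kap wt π b.1.1 + (b.2 : ℕ) then
        (MvPolynomial.X (some (Sum.inr a)) : MvPolynomial (Option (UU wt)) Ω) else 0) =
      MvPolynomial.X (some (Sum.inr b)) := by
  rw [Finset.sum_eq_single b]
  · rw [if_pos ⟨rfl, rfl⟩]
  · rintro ⟨⟨i, hi⟩, l⟩ _ hne
    rw [if_neg]
    rintro ⟨h1, h2⟩
    apply hne
    obtain ⟨⟨i', hi'⟩, l'⟩ := b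
    simp only at h1 h2 ⊢
    have hl : (l : ℕ) < 2 * wt i := l.2
    have hl' : (l' : ℕ) < 2 * wt i' := l'.2
    rcases lt_trichotomy i i' with h3 | h3 | h3
    · have := h i i' hi h3 h1
      omega
    · subst h3
      have : l = l' := Fin.ext (by omega)
      rw [this]
    · have := h i' i hi' h3 h1.symm
      omega
  · intro hb
    exact absurd (Finset.mem_univ b) hb

/-- WIN: every unknown is, up to a nonzero factor, one of the linear forms. -/
theorem p_WIN (hKAP : Stmt_KAP) : Stmt_WIN := by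
  intro Ω _ _ n c wt π h1 h2 hπ a
  obtain ⟨k1, k2, k3, k4⟩ := hKAP n c wt π h1 h2 hπ
  have hlt : ∀ m : ℕ, m < 4 → m < 2 * dg wt π (π 1) := fun m hm => by omega
  have key : ∀ (m : ℕ) (hm : m < 4), lin Ω wt π (π 1) m =
      ((if m = 0 then - MvPolynomial.X (some (Sum.inl 2)) else 0) +
      (if m = 1 then - MvPolynomial.X (some (Sum.inl 3)) else 0) +
      (if m = 2 then 2 * MvPolynomial.X (some (Sum.inl 1)) else 0) +
      (if m = 3 then - MvPolynomial.X (some (Sum.inl 0)) else 0) :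
        MvPolynomial (Option (UU wt)) Ω) := by
    intro m hm
    unfold lin
    rw [WIN_small Ω wt π k3 m hm, if_pos rfl, zero_add]
  rcases a with t | b
  · have ht : t = 0 ∨ t = 1 ∨ t = 2 ∨ t = 3 := by
      fin_cases t <;> simp
    rcases ht with rfl | rfl | rfl | rfl
    · refine ⟨⟨π 1, ⟨3, hlt 3 (by norm_num)⟩⟩, -1, by simp, ?_⟩
      show lin Ω wt π (π 1) 3 = _
      rw [key 3 (by norm_num)]
      simp
    · refine ⟨⟨π 1, ⟨2, hlt 2 (by norm_num)⟩⟩, 2, two_ne_zero, ?_⟩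
      show lin Ω wt π (π 1) 2 = _
      rw [key 2 (by norm_num)]
      have h5 : (MvPolynomial.C (2 : Ω) : MvPolynomial (Option (UU wt)) Ω) = 2 := map_ofNat _ 2
      rw [h5]
      simp
    · refine ⟨⟨π 1, ⟨0, hlt 0 (by norm_num)⟩⟩, -1, by simp, ?_⟩
      show lin Ω wt π (π 1) 0 = _
      rw [key 0 (by norm_num)]
      simp
    · refine ⟨⟨π 1, ⟨1, hlt 1 (by norm_num)⟩⟩, -1, by simp, ?_⟩
      show lin Ω wt π (π 1) 1 = _
      rw [key 1 (by norm_num)]
      simp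
  · have hb : (b.2 : ℕ) < 2 * wt b.1.1 := b.2.2
    have hk := k1 b.1.1 b.1.2
    refine ⟨⟨π b.1.1, ⟨2 * kap wt π b.1.1 + (b.2 : ℕ), by omega⟩⟩, 1, one_ne_zero, ?_⟩
    show lin Ω wt π (π b.1.1) (2 * kap wt π b.1.1 + (b.2 : ℕ)) = _
    unfold lin
    rw [WIN_one Ω wt π k2 b]
    have h3 : π 1 = π b.1.1 → 4 ≤ 2 * kap wt π b.1.1 + (b.2 : ℕ) := by
      intro h
      have := k3 b.1.1 b.1.2 h.symm
      omega
    have h4 : (if π 1 = π b.1.1 then
        ((if 2 * kap wt π b.1.1 + (b.2 : ℕ) = 0 then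
          - MvPolynomial.X (some (Sum.inl 2)) else 0) +
        (if 2 * kap wt π b.1.1 + (b.2 : ℕ) = 1 then
          - MvPolynomial.X (some (Sum.inl 3)) else 0) +
        (if 2 * kap wt π b.1.1 + (b.2 : ℕ) = 2 then
          2 * MvPolynomial.X (some (Sum.inl 1)) else 0) +
        (if 2 * kap wt π b.1.1 + (b.2 : ℕ) = 3 then
          - MvPolynomial.X (some (Sum.inl 0)) else 0) :
          MvPolynomial (Option (UU wt)) Ω)
      else 0) = 0 := by
      split_ifs with h5 <;> first | (have := h3 h5; omega) | simp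
    rw [h4]
    simp

end IX1
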