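import Pool.Agent.Work.MP_501976_ix.Interface

/-! # Block ZOP: the zoomed curve satisfies the same homogeneous equations -/

universe u v

open Polynomial

namespace IX1

theorem ZOP_key {F : Type u} [Field F] {M : Type u} [Field M] [Algebra F M] (x : M)
    (hx : x ≠ 0) (ε δ : F) (hδ : δ ≠ 0) (w : ℕ) (f : F[X]) (hf : f.natDegree ≤ 2 * w) :
    Polynomial.aeval x (zoom ε δ w f) = (x ^ 2 / algebraMap F M δ) ^ w *
      Polynomial.aeval (algebraMap F M ε * (1 - algebraMap F M δ / x)) f := by
  have hδ' : algebraMap F M δ ≠ 0 := by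
    rw [Ne, map_eq_zero]
    exact hδ
  have h1 : Polynomial.aeval (algebraMap F M ε * (1 - algebraMap F M δ / x)) f =
      Polynomial.aeval (algebraMap F M δ / x) (f.comp (C ε * (1 - X))) := by
    rw [Polynomial.aeval_comp]
    congr 1
    simp
  have h0 : (C ε * (1 - X) : F[X]).natDegree ≤ 1 := by
    refine (natDegree_C_mul_le _ _).trans ?_
    refine (natDegree_sub_le _ _).trans ?_
    simp
  have h2 : (f.comp (C ε * (1 - X))).natDegree < 2 * w + 1 := by
    have h3 := natDegree_comp_le (p := f) (q := C ε * (1 - X))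
    have h4 : f.natDegree * (C ε * (1 - X) : F[X]).natDegree ≤ 2 * w * 1 :=
      Nat.mul_le_mul hf h0
    omega
  rw [h1, aeval_eq_sum_range' h2, zoom, map_sum, Finset.mul_sum]
  refine Finset.sum_congr rfl fun l hl => ?_
  have hl' : l ≤ 2 * w := by
    have := Finset.mem_range.1 hl
    omega
  have h5 : x ^ (2 * w) = x ^ (2 * w - l) * x ^ l := by
    rw [← pow_add, Nat.sub_add_cancel hl']
  rw [map_mul, map_pow, aeval_X, aeval_C, Algebra.smul_def, map_div₀, map_mul, map_pow, map_pow,
    div_pow, div_pow, ← pow_mul, h5]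
  change algebraMap F M (ex ε f l) * algebraMap F M δ ^ l / algebraMap F M δ ^ w *
    x ^ (2 * w - l) = x ^ (2 * w - l) * x ^ l / algebraMap F M δ ^ w *
      (algebraMap F M (ex ε f l) * (algebraMap F M δ ^ l / x ^ l))
  have hxl : x ^ l ≠ 0 := pow_ne_zero _ hx
  have hδw : algebraMap F M δ ^ w ≠ 0 := pow_ne_zero _ hδ'
  field_simp

theorem p_ZOP (hHOM : Stmt_HOM.{u}) : Stmt_ZOP.{u} := by
  intro F _ N wt d H f ε δ hH hδ hf h0
  let M : Type u := FractionRing F[X]
  let φ : F[X] →ₐ[F] M := IsScalarTower.toAlgHom F F[X] M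
  have hinj : Function.Injective φ := IsFractionRing.injective F[X] M
  let x : M := φ X
  have hx : x ≠ 0 := by
    intro h
    have h1 : (X : F[X]) = 0 := hinj (by rw [map_zero]; exact h)
    exact X_ne_zero h1
  have hφ : ∀ p : F[X], φ p = Polynomial.aeval x p := by
    intro p
    rw [Polynomial.aeval_algHom_apply, aeval_X_left_apply]
  apply hinj
  rw [map_zero, MvPolynomial.comp_aeval_apply]
  have h1 : (fun i => φ (zoom ε δ (wt i) (f i))) = fun i =>
      (x ^ 2 / algebraMap F M δ) ^ wt i *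
        Polynomial.aeval (algebraMap F M ε * (1 - algebraMap F M δ / x)) (f i) := by
    funext i
    rw [hφ, ZOP_key x hx ε δ hδ (wt i) (f i) (hf i)]
  rw [h1, hHOM F M N wt d H hH, ← MvPolynomial.comp_aeval_apply, h0, map_zero, mul_zero]

end IX1
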