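import Pool.Agent.Work.MP_501976_ix.Interface

set_option autoImplicit false

universe u v

open Polynomial

namespace IX1

theorem ZRD_pow_coeff {F : Type u} [Field F] (O : ValuationSubring F) (ε : F) (hε : ε ∈ O)
    (k l : ℕ) : ((C ε * (1 - X : F[X])) ^ k).coeff l ∈ O := by
  have h : (C ε * (1 - X : F[X])) ^ k =
      ((C (⟨ε, hε⟩ : O) * (1 - X)) ^ k).map (algebraMap O F) := by
    simp only [Polynomial.map_pow, Polynomial.map_mul, map_C, Polynomial.map_sub,
      Polynomial.map_one, map_X]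
    rfl
  rw [h, coeff_map]
  exact SetLike.coe_mem _

theorem ZRD_ex {F : Type u} [Field F] (O : ValuationSubring F) (ε : F) (hε : ε ∈ O)
    (f : F[X]) (hf : ∀ l, f.coeff l ∈ O.nonunits) (l : ℕ) : ex ε f l ∈ O.nonunits := by
  unfold ex
  rw [ValuationSubring.mem_nonunits_iff]
  rw [Polynomial.comp, Polynomial.eval₂_eq_sum_range, Polynomial.finset_sum_coeff]
  apply Valuation.map_sum_lt
  · exact one_ne_zero
  · intro i _
    rw [coeff_C_mul, map_mul]
    have h1 := (ValuationSubring.mem_nonunits_iff (A := O)).1 (hf i)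
    have h2 := (O.valuation_le_one_iff _).2 (ZRD_pow_coeff O ε hε i l)
    calc O.valuation (f.coeff i) * O.valuation (((C ε * (1 - X : F[X])) ^ i).coeff l)
        ≤ O.valuation (f.coeff i) * 1 := mul_le_mul_right h2 _
      _ < 1 := by rw [mul_one]; exact h1

theorem ZRD_zoom_coeff {F : Type u} [Field F] (ε δ : F) (w : ℕ) (f : F[X]) (m : ℕ) :
    (zoom ε δ w f).coeff m =
      if m ≤ 2 * w then ex ε f (2 * w - m) * δ ^ (2 * w - m) / δ ^ w else 0 := by
  unfold zoom
  rw [Polynomial.finset_sum_coeff]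
  simp only [coeff_C_mul, coeff_X_pow]
  split_ifs with h
  · rw [Finset.sum_eq_single (2 * w - m)]
    · rw [if_pos (by omega), mul_one]
    · intro b hb hbm
      rw [Finset.mem_range] at hb
      rw [if_neg (by omega), mul_zero]
    · intro h2
      exfalso
      apply h2
      rw [Finset.mem_range]
      omega
  · apply Finset.sum_eq_zero
    intro b hb
    rw [if_neg (by omega), mul_zero]

theorem ZRD_ex_zero {F : Type u} [Field F] (ε : F) (hε : ε ^ 2 = 1) :
    ex ε (1 - X ^ 2 : F[X]) 0 = 0 ∧ ex ε (1 - X ^ 2 : F[X]) 1 = 2 ∧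
      ex ε (1 - X ^ 2 : F[X]) 2 = -1 := by
  have h : (1 - X ^ 2 : F[X]).comp (C ε * (1 - X)) = C 2 * X - X ^ 2 := by
    simp only [sub_comp, one_comp, X_pow_comp, mul_pow, ← C_pow, hε]
    rw [C_1, one_mul]
    have : (C 2 : F[X]) = 2 := rfl
    rw [this]
    ring
  unfold ex
  rw [h]
  refine ⟨?_, ?_, ?_⟩
  · simp [coeff_X_pow]
  · simp [coeff_X_pow, coeff_X]
  · simp [coeff_X_pow, coeff_X]

theorem ZRD_hmap {R S : Type u} [CommRing R] [CommRing S] (φ : R →+* S) {N : ℕ}
    {wt : Fin N → ℕ} {d : ℕ} {H : MvPolynomial (Fin N) R} (h : H.IsWeightedHomogeneous wt d) :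
    (MvPolynomial.map φ H).IsWeightedHomogeneous wt d := by
  intro e he
  apply h
  intro h0
  apply he
  rw [MvPolynomial.coeff_map, h0, map_zero]

theorem p_ZRD (hHOM : Stmt_HOM.{u}) (hZOP : Stmt_ZOP.{u}) (hRDU : Stmt_RDU.{u}) :
    Stmt_ZRD.{u} := by
  intro F _ O _ N wt hwt0 c G d hG f hfd hf0 hfn hGf ε δ hε hδ hO hunit
  classical
  obtain ⟨i₀, hi₀, l₀, hl₀, hu₀⟩ := hunit
  have hεO : ε ∈ O := by
    have h1 : ε * ε = 1 := by rw [← sq]; exact hε
    rcases mul_self_eq_one_iff.1 h1 with h | h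
    · rw [h]; exact O.one_mem
    · rw [h]; exact O.neg_mem _ O.one_mem
  have hexn : ∀ i, i ≠ 0 → ∀ l, ex ε (f i) l ∈ O.nonunits := fun i hi l =>
    ZRD_ex O ε hεO (f i) (hfn i hi) l
  -- δ is in the maximal ideal
  have hvδ : O.valuation δ < 1 := by
    by_contra hcon
    push Not at hcon
    apply hu₀
    rw [ValuationSubring.mem_nonunits_iff, map_div₀, map_pow]
    have h1 := (ValuationSubring.mem_nonunits_iff (A := O)).1 (hexn i₀ hi₀ l₀)
    have h2 : 1 ≤ O.valuation δ ^ (wt i₀ - l₀) := one_le_pow₀ hcon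
    exact (div_lt_one₀ (lt_of_lt_of_le zero_lt_one h2)).2 (lt_of_lt_of_le h1 h2)
  have hδn : δ ∈ O.nonunits := (ValuationSubring.mem_nonunits_iff (A := O)).2 hvδ
  -- the coefficients of the zoomed curve
  let Z : Fin (N + 1) → F[X] := fun i => zoom ε δ (wt i) (f i)
  have hhigh : ∀ i, i ≠ 0 → ∀ l, wt i ≤ l →
      ex ε (f i) l * δ ^ l / δ ^ wt i ∈ O.nonunits := by
    intro i hi l hl
    have h1 : ex ε (f i) l * δ ^ l / δ ^ wt i = ex ε (f i) l * δ ^ (l - wt i) := by
      rw [mul_div_assoc, pow_sub₀ _ hδ hl, div_eq_mul_inv]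
    rw [h1, ValuationSubring.mem_nonunits_iff, map_mul, map_pow]
    have h2 := (ValuationSubring.mem_nonunits_iff (A := O)).1 (hexn i hi l)
    calc O.valuation (ex ε (f i) l) * O.valuation δ ^ (l - wt i)
        ≤ O.valuation (ex ε (f i) l) * 1 := mul_le_mul_right (pow_le_one₀ zero_le' hvδ.le) _
      _ < 1 := by rw [mul_one]; exact h2
  have hlow : ∀ i l, l < wt i →
      ex ε (f i) l * δ ^ l / δ ^ wt i = ex ε (f i) l / δ ^ (wt i - l) := by
    intro i l hl
    have h1 : δ ^ wt i = δ ^ (wt i - l) * δ ^ l := by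
      rw [← pow_add]
      congr 1
      omega
    rw [h1, mul_div_mul_right _ _ (pow_ne_zero _ hδ)]
  have hZ0 : Z 0 = C 2 * X - C δ := by
    obtain ⟨e0, e1, e2⟩ := ZRD_ex_zero (F := F) ε hε
    ext m
    have h := ZRD_zoom_coeff ε δ (wt 0) (f 0) m
    change (zoom ε δ (wt 0) (f 0)).coeff m = _
    rw [h, hwt0, hf0]
    rcases m with _ | _ | _ | m
    · simp only [Nat.zero_le, if_true]
      simp [e2]
      field_simp
    · simp [e1, coeff_C]
      field_simp
    · simp [e0, coeff_C, coeff_X]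
    · rw [if_neg (by omega)]
      simp [coeff_C, coeff_X]
  have hZO : ∀ i l, (Z i).coeff l ∈ O := by
    intro i l
    by_cases hi : i = 0
    · rw [hi, hZ0]
      have hδO : δ ∈ O := (O.valuation_le_one_iff _).1 hvδ.le
      have h2 : (2 : F) ∈ O := by
        have : (2 : F) = 1 + 1 := by norm_num
        rw [this]
        exact O.add_mem _ _ O.one_mem O.one_mem
      rw [coeff_sub, coeff_C_mul, coeff_X, coeff_C]
      apply sub_mem
      · split_ifs
        · rw [mul_one]; exact h2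
        · rw [mul_zero]; exact O.zero_mem
      · split_ifs
        · exact hδO
        · exact O.zero_mem
    · change (zoom ε δ (wt i) (f i)).coeff l ∈ O
      rw [ZRD_zoom_coeff]
      split_ifs with h
      · rcases Nat.lt_or_ge (2 * wt i - l) (wt i) with h1 | h1
        · rw [hlow i _ h1]
          exact hO i hi _ h1
        · have h2 := (ValuationSubring.mem_nonunits_iff (A := O)).1 (hhigh i hi _ h1)
          exact (O.valuation_le_one_iff _).1 h2.le
      · exact O.zero_mem
  obtain ⟨g, hg1, hg2⟩ := hRDU F O (N + 1) Z hZO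
  have hgG : ∀ j, MvPolynomial.aeval g (MvPolynomial.map (IsLocalRing.residue O) (G j)) = 0 := by
    intro j
    apply hg2
    exact hZOP F (N + 1) wt (d j) _ f ε δ (ZRD_hmap _ (hG j)) hδ hfd (hGf j)
  -- residues of nonunits
  have hres : ∀ (a : F) (ha : a ∈ O), a ∈ O.nonunits → IsLocalRing.residue O ⟨a, ha⟩ = 0 := by
    intro a ha hn
    rw [IsLocalRing.residue_eq_zero_iff]
    rw [ValuationSubring.mem_nonunits_iff_exists_mem_maximalIdeal] at hn
    obtain ⟨_, h2⟩ := hn
    exact h2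
  have hres' : ∀ (a : F) (ha : a ∈ O), a ∉ O.nonunits → IsLocalRing.residue O ⟨a, ha⟩ ≠ 0 := by
    intro a ha hn h0
    apply hn
    rw [ValuationSubring.mem_nonunits_iff_exists_mem_maximalIdeal]
    exact ⟨ha, (IsLocalRing.residue_eq_zero_iff _).1 h0⟩
  -- the quotient by the power of the variable
  have hdvd : ∀ i, ∃ h : (IsLocalRing.ResidueField O)[X], g i = X ^ wt i * h := by
    intro i
    apply X_pow_dvd_iff.2
    intro m hm
    rw [hg1]
    by_cases hi : i = 0
    · subst hi
      have hm0 : m = 0 := by omega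
      subst hm0
      apply hres
      rw [hZ0]
      simpa using hδn
    · apply hres
      change (zoom ε δ (wt i) (f i)).coeff m ∈ _
      rw [ZRD_zoom_coeff, if_pos (by omega)]
      exact hhigh i hi _ (by omega)
  choose h hh using hdvd
  have hh0 : h 0 = C 2 := by
    have e1 : g 0 = C 2 * X := by
      ext m
      rw [hg1]
      rcases m with _ | _ | m
      · have : IsLocalRing.residue O ⟨(Z 0).coeff 0, hZO 0 0⟩ = 0 := by
          apply hres
          rw [hZ0]
          simpa using hδn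
        simpa using this
      · have e2 : (⟨(Z 0).coeff (0 + 1), hZO 0 (0 + 1)⟩ : O) = 2 := by
          apply Subtype.ext
          change (Z 0).coeff (0 + 1) = _
          rw [hZ0]
          simp [coeff_C]
          rfl
        rw [e2, map_ofNat]
        simp
      · have e2 : (⟨(Z 0).coeff (m + 1 + 1), hZO 0 (m + 1 + 1)⟩ : O) = 0 := by
          apply Subtype.ext
          change (Z 0).coeff (m + 1 + 1) = _
          rw [hZ0]
          simp [coeff_C, coeff_X]
        rw [e2, map_zero]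
        simp [coeff_X]
    have e3 := hh 0
    rw [hwt0, pow_one, e1, mul_comm] at e3
    exact (mul_left_cancel₀ X_ne_zero e3).symm
  have hhc : ∀ i, i ≠ 0 → (h i).coeff 0 = 0 := by
    intro i hi
    have e1 : (g i).coeff (wt i) = (h i).coeff 0 := by
      conv_lhs => rw [hh i]
      have := coeff_X_pow_mul (h i) (wt i) 0
      rwa [zero_add] at this
    rw [← e1, hg1]
    apply hres
    change (zoom ε δ (wt i) (f i)).coeff (wt i) ∈ _
    rw [ZRD_zoom_coeff, if_pos (by omega)]
    exact hhigh i hi _ (by omega)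
  have hgne : g i₀ ≠ 0 := by
    intro hz
    have e1 := hg1 i₀ (2 * wt i₀ - l₀)
    rw [hz, coeff_zero] at e1
    refine hres' _ (hZO i₀ (2 * wt i₀ - l₀)) ?_ e1.symm
    change (zoom ε δ (wt i₀) (f i₀)).coeff (2 * wt i₀ - l₀) ∉ _
    rw [ZRD_zoom_coeff, if_pos (by omega)]
    have : 2 * wt i₀ - (2 * wt i₀ - l₀) = l₀ := by omega
    rw [this, hlow i₀ l₀ hl₀]
    exact hu₀
  have hgdeg : ∀ i, (g i).natDegree ≤ 2 * wt i := by
    intro i
    rw [natDegree_le_iff_coeff_eq_zero]
    intro m hm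
    have e2 : (⟨(Z i).coeff m, hZO i m⟩ : O) = 0 := by
      apply Subtype.ext
      change (zoom ε δ (wt i) (f i)).coeff m = 0
      rw [ZRD_zoom_coeff, if_neg (by omega)]
    rw [hg1, e2, map_zero]
  have hhdeg : ∀ i, (h i).natDegree ≤ 2 * wt i := by
    intro i
    by_cases hz : h i = 0
    · rw [hz]; simp
    · have e1 := hgdeg i
      rw [hh i, natDegree_mul (pow_ne_zero _ X_ne_zero) hz] at e1
      omega
  have hhG : ∀ j, MvPolynomial.aeval h (MvPolynomial.map (IsLocalRing.residue O) (G j)) = 0 := by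
    intro j
    have e1 := hHOM (IsLocalRing.ResidueField O) (IsLocalRing.ResidueField O)[X] (N + 1) wt (d j)
      (MvPolynomial.map (IsLocalRing.residue O) (G j)) (ZRD_hmap _ (hG j)) X h
    have e2 : (fun i => X ^ wt i * h i) = g := funext fun i => (hh i).symm
    rw [e2, hgG j] at e1
    exact (mul_eq_zero.1 e1.symm).resolve_left (pow_ne_zero _ X_ne_zero)
  have h2ne : (2 : IsLocalRing.ResidueField O) ≠ 0 := two_ne_zero
  refine ⟨fun i => (C (2⁻¹ : IsLocalRing.ResidueField O)) ^ wt i * h i, ?_, ?_, ?_, ⟨i₀, hi₀, ?_⟩,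
    ?_⟩
  · intro i
    change ((C (2⁻¹ : IsLocalRing.ResidueField O)) ^ wt i * h i).natDegree ≤ _
    rw [← C_pow]
    exact (natDegree_C_mul_le _ _).trans (hhdeg i)
  · change ((C (2⁻¹ : IsLocalRing.ResidueField O)) ^ wt 0 * h 0).coeff 0 = 1
    rw [hwt0, hh0, pow_one, ← C_mul, inv_mul_cancel₀ h2ne, coeff_C_zero]
  · intro i hi
    change ((C (2⁻¹ : IsLocalRing.ResidueField O)) ^ wt i * h i).coeff 0 = 0
    rw [← C_pow, coeff_C_mul, hhc i hi, mul_zero]
  · change (C (2⁻¹ : IsLocalRing.ResidueField O)) ^ wt i₀ * h i₀ ≠ 0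
    apply mul_ne_zero
    · exact pow_ne_zero _ (C_ne_zero.2 (inv_ne_zero h2ne))
    · intro hz
      apply hgne
      rw [hh i₀, hz, mul_zero]
  · intro j
    have e1 := hHOM (IsLocalRing.ResidueField O) (IsLocalRing.ResidueField O)[X] (N + 1) wt (d j)
      (MvPolynomial.map (IsLocalRing.residue O) (G j)) (ZRD_hmap _ (hG j))
      (C (2⁻¹ : IsLocalRing.ResidueField O)) h
    rw [hhG j, mul_zero] at e1
    exact e1

end IX1
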