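import Mathlib
import Pool.Agent.Work.MP_501976_ix.B_HOM
import Pool.Agent.Work.MP_501976_ix.B_KRU
import Pool.Agent.Work.MP_501976_ix.B_GEN
import Pool.Agent.Work.MP_501976_ix.B_VAL
import Pool.Agent.Work.MP_501976_ix.B_NRM
import Pool.Agent.Work.MP_501976_ix.B_RDU
import Pool.Agent.Work.MP_501976_ix.B_ORD
import Pool.Agent.Work.MP_501976_ix.B_ZOP
import Pool.Agent.Work.MP_501976_ix.B_ZRD
import Pool.Agent.Work.MP_501976_ix.B_SPC
import Pool.Agent.Work.MP_501976_ix.B_KAP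
import Pool.Agent.Work.MP_501976_ix.B_GHM
import Pool.Agent.Work.MP_501976_ix.B_CRD
import Pool.Agent.Work.MP_501976_ix.B_CVF
import Pool.Agent.Work.MP_501976_ix.B_PEF
import Pool.Agent.Work.MP_501976_ix.B_LIN
import Pool.Agent.Work.MP_501976_ix.B_WIN
import Pool.Agent.Work.MP_501976_ix.B_EXI
import Pool.Agent.Work.MP_501976_ix.B_CUR
import Pool.Agent.Work.MP_501976_ix.B_TRA
import Pool.Agent.Work.MP_501976_ix.B_PAR
import Pool.Agent.Work.MP_501976_ix.B_NCO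
import Pool.Agent.Work.MP_501976_ix.B_FIN

/-!
# Assembly of THEOREM IX (index one bases)
-/

universe u v

namespace IX1

theorem final : Stmt_FIN.{u, v} := by
  have hHOM : Stmt_HOM.{u} := p_HOM
  have hKRU : Stmt_KRU.{u} := p_KRU
  have hGEN : Stmt_GEN.{u} := p_GEN hKRU
  have hVAL : Stmt_VAL.{u} := p_VAL
  have hNRM : Stmt_NRM.{u} := p_NRM
  have hRDU : Stmt_RDU.{u} := p_RDU
  have hORD : Stmt_ORD.{u} := p_ORD
  have hZOP : Stmt_ZOP.{u} := p_ZOP hHOM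
  have hZRD : Stmt_ZRD.{u} := p_ZRD hHOM hZOP hRDU
  have hSPC : Stmt_SPC.{u} := p_SPC hNRM hRDU hORD hZRD
  have hKAP : Stmt_KAP := p_KAP
  have hGHM : Stmt_GHM.{u} := p_GHM hKAP
  have hCRD : Stmt_CRD := p_CRD
  have hCVF : Stmt_CVF.{u} := p_CVF
  have hPEF : Stmt_PEF.{u} := p_PEF hGHM hCVF
  have hLIN : Stmt_LIN.{u} := p_LIN
  have hWIN : Stmt_WIN.{u} := p_WIN hKAP
  have hEXI : Stmt_EXI.{u} := p_EXI hGEN hCRD hCVF hPEF hLIN hWIN
  have hCUR : Stmt_CUR.{u} := p_CUR hGHM hVAL hCVF hEXI hSPC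
  have hTRA : Stmt_TRA.{u} := p_TRA hCUR
  exact p_FIN hTRA p_PAR p_NCO

end IX1
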