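import Pool.Agent.Work.MP_501976_ix.Interface

open Polynomial

namespace IX1

theorem KAP_ins {n c : ℕ} (wt : Fin (n + 3) → ℕ) (π : Fin (n + 3) → Fin c) (i : Fin (n + 3)) :
    kap wt π i + wt i = ∑ i' ∈ insert i (Finset.univ.filter
      (fun i' => i' ≠ 0 ∧ π i' = π i ∧ i' < i)), wt i' := by
  rw [Finset.sum_insert (by simp), add_comm]
  rfl

theorem KAP_pair {n : ℕ} (wt : Fin (n + 3) → ℕ) (h1 : wt 1 = 1) (h2 : wt 2 = 1)
    (s : Finset (Fin (n + 3))) (m1 : (1 : Fin (n + 3)) ∈ s) (m2 : (2 : Fin (n + 3)) ∈ s) :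
    2 ≤ ∑ i ∈ s, wt i := by
  have v1 : ((1 : Fin (n + 3)) : ℕ) = 1 := by simp
  have v2 : ((2 : Fin (n + 3)) : ℕ) = 2 := by simp
  have hne : (1 : Fin (n + 3)) ≠ 2 := by
    intro h
    have := congrArg Fin.val h
    omega
  calc 2 = ∑ i ∈ ({1, 2} : Finset (Fin (n + 3))), wt i := by
        rw [Finset.sum_pair hne, h1, h2]
    _ ≤ ∑ i ∈ s, wt i := by
        apply Finset.sum_le_sum_of_subset
        intro x hx
        simp only [Finset.mem_insert, Finset.mem_singleton] at hx
        rcases hx with rfl | rfl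
        · exact m1
        · exact m2

theorem p_KAP : Stmt_KAP := by
  intro n c wt π h1 h2 h12
  have v0 : ((0 : Fin (n + 3)) : ℕ) = 0 := rfl
  have v1 : ((1 : Fin (n + 3)) : ℕ) = 1 := by simp
  have v2 : ((2 : Fin (n + 3)) : ℕ) = 2 := by simp
  have n1 : (1 : Fin (n + 3)) ≠ 0 := by
    intro h
    have := congrArg Fin.val h
    omega
  have n2 : (2 : Fin (n + 3)) ≠ 0 := by
    intro h
    have := congrArg Fin.val h
    omega
  refine ⟨?_, ?_, ?_, ?_⟩
  · intro i hi
    rw [KAP_ins]
    apply Finset.sum_le_sum_of_subset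
    intro x hx
    simp only [Finset.mem_insert, Finset.mem_filter, Finset.mem_univ, true_and] at hx ⊢
    rcases hx with rfl | hx
    · refine ⟨?_, rfl⟩
      intro h
      have := congrArg Fin.val h
      omega
    · exact ⟨hx.1, hx.2.1⟩
  · intro i i' hi hii' hπ
    rw [KAP_ins]
    apply Finset.sum_le_sum_of_subset
    intro x hx
    simp only [Finset.mem_insert, Finset.mem_filter, Finset.mem_univ, true_and] at hx ⊢
    rcases hx with rfl | hx
    · refine ⟨?_, hπ, hii'⟩
      intro h
      have := congrArg Fin.val h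
      omega
    · exact ⟨hx.1, hx.2.1.trans hπ, hx.2.2.trans hii'⟩
  · intro i hi hπ
    apply KAP_pair wt h1 h2
    · simp only [Finset.mem_filter, Finset.mem_univ, true_and]
      refine ⟨n1, hπ.symm, ?_⟩
      rw [Fin.lt_def]
      omega
    · simp only [Finset.mem_filter, Finset.mem_univ, true_and]
      refine ⟨n2, (hπ.trans h12).symm, ?_⟩
      rw [Fin.lt_def]
      omega
  · apply KAP_pair wt h1 h2
    · simp only [Finset.mem_filter, Finset.mem_univ, true_and]
      exact ⟨n1, trivial⟩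
    · simp only [Finset.mem_filter, Finset.mem_univ, true_and]
      exact ⟨n2, h12.symm⟩

end IX1
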