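import Pool.Agent.Work.MP_501976_ix.Interface

set_option autoImplicit false

universe u v

open Polynomial

namespace IX1

theorem p_NCO : Stmt_NCO.{u} := by
  intro K M _ _ _ T f₀ f₁ m hT h0 hq
  have hf0 : f₀ ≠ 0 := fun h => h0 (by simp [h])
  have hne : aeval T f₀ ≠ 0 := fun h => hT ⟨f₀, hf0, h⟩
  have hqm : aeval T f₁ / aeval T f₀ ^ m ∈ algebraicClosure K M :=
    mem_algebraicClosure_iff.2 hq
  have hT' : Transcendental (algebraicClosure K M) T := by
    intro h
    exact hT (IsAlgebraic.restrictScalars K h)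
  have hkey : f₁.map (algebraMap K (algebraicClosure K M)) =
      C (⟨_, hqm⟩ : algebraicClosure K M) *
        (f₀.map (algebraMap K (algebraicClosure K M))) ^ m := by
    rw [← sub_eq_zero]
    by_contra hz
    apply hT'
    refine ⟨_, hz, ?_⟩
    rw [map_sub, map_mul, map_pow, aeval_map_algebraMap, aeval_map_algebraMap, aeval_C]
    have : algebraMap (algebraicClosure K M) M ⟨_, hqm⟩ = aeval T f₁ / aeval T f₀ ^ m := rfl
    rw [this, div_mul_cancel₀ _ (pow_ne_zero _ hne), sub_self]
  have hc := congrArg (fun p => p.coeff 0) hkey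
  simp only [coeff_map, coeff_C_mul] at hc
  rw [← Polynomial.map_pow, coeff_map] at hc
  have hp : (f₀ ^ m).coeff 0 ≠ 0 := by
    rw [Polynomial.coeff_zero_eq_eval_zero, Polynomial.eval_pow,
      ← Polynomial.coeff_zero_eq_eval_zero]
    exact pow_ne_zero _ h0
  have hinj := (algebraMap K (algebraicClosure K M)).injective
  have hp' : algebraMap K (algebraicClosure K M) ((f₀ ^ m).coeff 0) ≠ 0 := by
    intro h
    exact hp (hinj (by rw [h, map_zero]))
  refine ⟨f₁.coeff 0 / (f₀ ^ m).coeff 0, ?_⟩
  apply Polynomial.map_injective _ hinj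
  rw [hkey, Polynomial.map_mul, Polynomial.map_pow, map_C, map_div₀, hc,
    mul_div_cancel_right₀ _ hp']

end IX1
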