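import Mathlib
import Pool.Agent.Work.MP_501976_ag_helper95.Cone

/-!
# Index one bases are swept out by conics (MP_501976_ag, THEOREM IX, helper27)

Blocks of the proof of `IndexOneCovers`.  Every statement `Stmt_X` is one block; the block file
`B_X.lean` proves `p_X : Stmt_A → .. → Stmt_X`.  Namespace `IX1`.
-/

universe u v

open Polynomial

namespace IX1

/-! ### General algebra -/

/-- HOM. A weighted homogeneous polynomial at a rescaled point, in any commutative algebra.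
Proof: `MvPolynomial.aeval_def`, `eval₂` as a sum over the support; for a monomial `e` in the
support `Finsupp.weight wt e = d` (definition of `IsWeightedHomogeneous`), and
`∏ (lam ^ wt i * x i) ^ e i = lam ^ (∑ e i * wt i) * ∏ x i ^ e i`. -/
def Stmt_HOM : Prop :=
  ∀ (R A : Type u) [CommRing R] [CommRing A] [Algebra R A] (N : ℕ) (wt : Fin N → ℕ) (d : ℕ)
    (H : MvPolynomial (Fin N) R), H.IsWeightedHomogeneous wt d → ∀ (lam : A) (x : Fin N → A),
    MvPolynomial.aeval (fun i => lam ^ wt i * x i) H = lam ^ d * MvPolynomial.aeval x H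

/-- The ideal of the origin. -/
noncomputable def orig (Ω : Type u) [Field Ω] (σ : Type) : Ideal (MvPolynomial σ Ω) :=
  Ideal.span (Set.range MvPolynomial.X)

/-- KRU. Let `E v` be polynomials without constant term in the variables `Option U` (`none` is
the parameter `s`), not more of them than `card U`, whose linear parts together with `s` span all
linear forms.  Then there is a prime `q` contained in the ideal of the origin which contains the
`E v` but not `s`.
Proof: let `q` be a minimal prime over `span (range E)` below `orig` (`orig` is prime, it is the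
kernel of evaluation at zero; `Ideal.exists_minimalPrimes_le`).  Its height is at most `card V`
(`Ideal.height_le_card_of_mem_minimalPrimes_span_finset`).  If `s ∈ q` let `m` be `orig`
localised at `orig`: all variables lie in `q R_m + m^2`, so `m = q R_m + m * m`, by Nakayama
(`m` finitely generated, `Submodule.le_of_le_smul_of_le_jacobson_bot` or
`IsLocalRing`-version) `m ≤ q R_m`, hence `orig ≤ q` (comap), `q = orig`; the height of `orig` is
at least `card U + 1` (`Pool.Agent.Work.MP_f82ddf_nt.card_le_height` after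
`Fintype.equivFin (Option U)`, as in `MP501976.exists_ne_zero_common_zero`), contradiction. -/
def Stmt_KRU : Prop :=
  ∀ (Ω : Type u) [Field Ω] (U V : Type) [Fintype U] [Fintype V]
    (E : V → MvPolynomial (Option U) Ω), Fintype.card V ≤ Fintype.card U →
    (∀ v, E v ∈ orig Ω (Option U)) →
    (∀ a : U, (MvPolynomial.X (some a) : MvPolynomial (Option U) Ω) ∈
      Ideal.span ({MvPolynomial.X none} ∪ Set.range E) ⊔ orig Ω (Option U) ^ 2) →
    ∃ q : Ideal (MvPolynomial (Option U) Ω), q.IsPrime ∧ (∀ v, E v ∈ q) ∧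
      MvPolynomial.X none ∉ q ∧ q ≤ orig Ω (Option U)

/-- GEN (uses KRU). The generic solution: same hypotheses, there is a solution `z` in an
algebraically closed field with `z none` transcendental.
Proof: `F` = algebraic closure of the fraction field of `MvPolynomial (Option U) Ω ⧸ q`,
`z o` = class of `X o`.  If `P` is a nonzero polynomial in one variable with `P (z none) = 0`,
write `P = X ^ m * Q` with `Q.coeff 0 ≠ 0` (`Polynomial.exists_eq_pow_rootMultiplicity_mul_and_not_dvd`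
or `eq_X_pow_mul..`); `P(s) ∈ q`, `s ∉ q`, so `Q(s) ∈ q ≤ orig`; evaluation at zero gives
`Q.coeff 0 = 0`, contradiction. -/
def Stmt_GEN : Prop :=
  ∀ (Ω : Type u) [Field Ω] (U V : Type) [Fintype U] [Fintype V]
    (E : V → MvPolynomial (Option U) Ω), Fintype.card V ≤ Fintype.card U →
    (∀ v, E v ∈ orig Ω (Option U)) →
    (∀ a : U, (MvPolynomial.X (some a) : MvPolynomial (Option U) Ω) ∈
      Ideal.span ({MvPolynomial.X none} ∪ Set.range E) ⊔ orig Ω (Option U) ^ 2) →
    ∃ (F : Type u) (_ : Field F) (_ : IsAlgClosed F) (_ : Algebra Ω F) (z : Option U → F),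
      (∀ v, MvPolynomial.aeval z (E v) = 0) ∧ Transcendental Ω (z none)

/-- VAL. A valuation ring containing `Ω` and the transcendental element `s`, in which `s - 1` is
not a unit.
Proof: `Ideal.image_subset_nonunits_valuationSubring` for the subring `A` = range of
`Polynomial.aeval s : Ω[X] → F` and the ideal generated by `s - 1`; it is not the unit ideal: if
`1 = (s - 1) * P(s)` then `1 = (X - 1) * P` (transcendence), evaluate at `1`. -/
def Stmt_VAL : Prop :=
  ∀ (Ω F : Type u) [Field Ω] [Field F] [Algebra Ω F] (s : F), Transcendental Ω s →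
    ∃ O : ValuationSubring F, (∀ a : Ω, algebraMap Ω F a ∈ O) ∧ s ∈ O ∧ s - 1 ∈ O.nonunits

/-- NRM. Normalisation of a finite family with positive weights.
Proof: for `a x ≠ 0` choose `ρ x` with `ρ x ^ n x = a x` (`IsAlgClosed.exists_pow_nat_eq`); let
`r` be the `ρ x` (among those with `a x ≠ 0`) of largest `O.valuation`
(`Finset.exists_max_image`).  Then `a x / r ^ n x = (ρ x / r) ^ n x` has valuation at most one
(`ValuationSubring.valuation_le_one_iff`), with equality for the maximal `x`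
(`ValuationSubring.mem_nonunits_iff`). -/
def Stmt_NRM : Prop :=
  ∀ (F : Type u) [Field F] [IsAlgClosed F] (O : ValuationSubring F) (ι : Type) [Fintype ι]
    (a : ι → F) (n : ι → ℕ), (∀ x, 0 < n x) → (∃ x, a x ≠ 0) →
    ∃ r : F, r ≠ 0 ∧ (∀ x, a x / r ^ n x ∈ O) ∧ ∃ x, a x / r ^ n x ∉ O.nonunits

/-- RDU. Reduction of a curve with coefficients in the valuation ring.
Proof: lift `f i` to a polynomial over `O` (`Polynomial.toSubring` or
`∑ l ∈ range, C ⟨coeff, _⟩ * X ^ l`), map it by the residue map.  `MP501976.aeval_map` and the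
injectivity of `Polynomial.map (algebraMap O F)`. -/
def Stmt_RDU : Prop :=
  ∀ (F : Type u) [Field F] (O : ValuationSubring F) (N : ℕ) (f : Fin N → F[X])
    (hf : ∀ i l, (f i).coeff l ∈ O),
    ∃ g : Fin N → (IsLocalRing.ResidueField O)[X],
      (∀ i l, (g i).coeff l = IsLocalRing.residue O ⟨(f i).coeff l, hf i l⟩) ∧
      ∀ G : MvPolynomial (Fin N) O,
        MvPolynomial.aeval f (MvPolynomial.map (algebraMap O F) G) = 0 →
        MvPolynomial.aeval g (MvPolynomial.map (IsLocalRing.residue O) G) = 0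

/-! ### Specialisation of curves of degree two through the point `(1, 0, .., 0)` -/

/-- ORD. A polynomial of degree at most `2 w` which vanishes at `0` and is not zero does not
vanish to order `w` both at `1` and at `-1`.
Proof: otherwise `X ^ w ∣ f.comp (C ε * (1 - X))` for `ε = 1, -1`, so (composing with
`1 - C ε * X`) `(1 - C ε * X) ^ w ∣ f`; the two powers are coprime (`2 ≠ 0`), so their product,
of degree `2 w`, divides `f`: `f = C c * ((1 - X) * (1 + X)) ^ w`, and `f.coeff 0 = 0` gives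
`c = 0`. -/
def Stmt_ORD : Prop :=
  ∀ (F : Type u) [Field F] [CharZero F] (w : ℕ) (f : F[X]), f.natDegree ≤ 2 * w →
    f.coeff 0 = 0 → f ≠ 0 →
    ∃ ε : F, ε ^ 2 = 1 ∧ ∃ l < w, (f.comp (C ε * (1 - X))).coeff l ≠ 0

/-- The coefficients of the expansion at `ε`. -/
noncomputable def ex {F : Type u} [Field F] (ε : F) (f : F[X]) (l : ℕ) : F :=
  (f.comp (C ε * (1 - X))).coeff l

/-- The zoomed curve with centre `ε` and radius `δ`: the polynomial
`(X ^ 2 / δ) ^ w * f (ε * (1 - δ / X))`. -/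
noncomputable def zoom {F : Type u} [Field F] (ε δ : F) (w : ℕ) (f : F[X]) : F[X] :=
  ∑ l ∈ Finset.range (2 * w + 1), C (ex ε f l * δ ^ l / δ ^ w) * X ^ (2 * w - l)

/-- ZOP (uses HOM). The zoomed curve satisfies the same homogeneous equations.
Proof: in `M = FractionRing F[X]` let `x` be the image of `X`, `τ = ε * (1 - δ / x)`.  The image
of `zoom ε δ (wt i) (f i)` is `(x ^ 2 / δ) ^ wt i * aeval τ (f i)`, since
`aeval τ (f i) = ∑_{l ≤ 2 wt i} ex ε (f i) l * (δ / x) ^ l` (`Polynomial.aeval_comp`,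
`natDegree ≤ 2 wt i`, `Polynomial.aeval_eq_sum_range'`).  By HOM (with `A = M`) `aeval` of `H` is
`(x ^ 2 / δ) ^ d * aeval τ (aeval f H) = 0`; `F[X] → M` is injective. -/
def Stmt_ZOP : Prop :=
  ∀ (F : Type u) [Field F] (N : ℕ) (wt : Fin N → ℕ) (d : ℕ) (H : MvPolynomial (Fin N) F)
    (f : Fin N → F[X]) (ε δ : F), H.IsWeightedHomogeneous wt d → δ ≠ 0 →
    (∀ i, (f i).natDegree ≤ 2 * wt i) → MvPolynomial.aeval f H = 0 →
    MvPolynomial.aeval (fun i => zoom ε δ (wt i) (f i)) H = 0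

/-- ZRD (uses HOM, ZOP, RDU). The case in which the reduction is constant after one zoom.
Data: `f 0 = 1 - X ^ 2`, the other `f i` have all coefficients in the maximal ideal; `ε ^ 2 = 1`;
`δ ≠ 0` is such that all `ex ε (f i) l / δ ^ (wt i - l)`, `i ≠ 0`, `l < wt i`, are in `O` and one
of them is a unit.
Proof: `δ ∈ O.nonunits`: for the unit, `δ ^ (wt i - l)` = (element of the maximal ideal) / unit.
The `ex ε (f i) l`, `i ≠ 0`, are in the maximal ideal (the maximal ideal is an ideal, `ε ∈ O`).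
`zoom ε δ 1 (f 0) = 2 X - δ` (as `1 - ε^2 (1 - y)^2 = 2 y - y ^ 2`).  For `i ≠ 0` the coefficient
of `X ^ (2 wt i - l)` in `zoom ε δ (wt i) (f i)` is `ex l / δ ^ (wt i - l)` for `l < wt i`,
and `ex l * δ ^ (l - wt i)`, in the maximal ideal, for `l ≥ wt i`.  So the zoomed curve has
coefficients in `O`; its reduction (RDU) is `(2 X, X ^ wt i * h i)` with
`h i = ∑_{l < wt i} b i l X ^ (wt i - l)`, `b i l` the residues.  By ZOP and RDU
`aeval (2 X, X ^ wt i * h i) = 0` on the reductions of the equations, which is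
`X ^ d * aeval (2, h i)` by HOM (`A = κ[X]`), so `aeval (2, h) = 0`; by HOM again with
`lam = C (1/2)`: `g 0 = 1`, `g i = C ((1/2) ^ wt i) * h i`. -/
def Stmt_ZRD : Prop :=
  ∀ (F : Type u) [Field F] (O : ValuationSubring F) [CharZero (IsLocalRing.ResidueField O)]
    (N : ℕ) (wt : Fin (N + 1) → ℕ), wt 0 = 1 → ∀ (c : ℕ)
    (G : Fin c → MvPolynomial (Fin (N + 1)) O) (d : Fin c → ℕ),
    (∀ j, (G j).IsWeightedHomogeneous wt (d j)) → ∀ (f : Fin (N + 1) → F[X]),
    (∀ i, (f i).natDegree ≤ 2 * wt i) → f 0 = 1 - X ^ 2 →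
    (∀ i, i ≠ 0 → ∀ l, (f i).coeff l ∈ O.nonunits) →
    (∀ j, MvPolynomial.aeval f (MvPolynomial.map (algebraMap O F) (G j)) = 0) →
    ∀ ε δ : F, ε ^ 2 = 1 → δ ≠ 0 →
    (∀ i, i ≠ 0 → ∀ l < wt i, ex ε (f i) l / δ ^ (wt i - l) ∈ O) →
    (∃ i, i ≠ 0 ∧ ∃ l < wt i, ex ε (f i) l / δ ^ (wt i - l) ∉ O.nonunits) →
    ∃ g : Fin (N + 1) → (IsLocalRing.ResidueField O)[X], (∀ i, (g i).natDegree ≤ 2 * wt i) ∧
      (g 0).coeff 0 = 1 ∧ (∀ i, i ≠ 0 → (g i).coeff 0 = 0) ∧ (∃ i, i ≠ 0 ∧ g i ≠ 0) ∧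
      ∀ j, MvPolynomial.aeval g (MvPolynomial.map (IsLocalRing.residue O) (G j)) = 0

/-- SPC (uses NRM, RDU, ORD, ZRD). Specialisation of curves through `(1, 0, .., 0)`.
Proof: (1) NRM for the family `a` (weight 2) and `(f i).coeff l` (`i ≠ 0`, `1 ≤ l ≤ 2 wt i`,
weight `l`), not all zero: `r`.  The curve `f' i = (f i).comp (C r⁻¹ * X)` satisfies the same
equations (composition is an algebra homomorphism), has coefficients `coeff l / r ^ l` in `O`.
(2) If one of those with `i ≠ 0` is a unit: RDU gives `g` (`(g 0).coeff 0 = 1`).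
(3) Otherwise `β = a / r ^ 2` is a unit and all `(f' i).coeff l`, `i ≠ 0`, are in the maximal
ideal.  Choose `η` with `η ^ 2 = - β⁻¹`, a unit, and pass to `f'' i = (f' i).comp (C η * X)`:
`f'' 0 = 1 - X ^ 2`.  Some `f'' i ≠ 0`, `i ≠ 0`; ORD gives `ε` (`2 ≠ 0` in `F` because the
residue field has characteristic zero) and `l < wt i` with `ex ε (f'' i) l ≠ 0`; NRM for the
family `ex ε (f'' i) l`, `i ≠ 0`, `l < wt i`, weight `wt i - l`, gives `δ`; ZRD. -/
def Stmt_SPC : Prop :=
  ∀ (F : Type u) [Field F] [IsAlgClosed F] (O : ValuationSubring F)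
    [CharZero (IsLocalRing.ResidueField O)]
    (N : ℕ) (wt : Fin (N + 1) → ℕ), wt 0 = 1 → ∀ (c : ℕ)
    (G : Fin c → MvPolynomial (Fin (N + 1)) O) (d : Fin c → ℕ),
    (∀ j, (G j).IsWeightedHomogeneous wt (d j)) → ∀ (f : Fin (N + 1) → F[X]) (a : F),
    (∀ i, (f i).natDegree ≤ 2 * wt i) → f 0 = 1 + C a * X ^ 2 →
    (∀ i, i ≠ 0 → (f i).coeff 0 = 0) → (∃ i, i ≠ 0 ∧ f i ≠ 0) →
    (∀ j, MvPolynomial.aeval f (MvPolynomial.map (algebraMap O F) (G j)) = 0) →
    ∃ g : Fin (N + 1) → (IsLocalRing.ResidueField O)[X], (∀ i, (g i).natDegree ≤ 2 * wt i) ∧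
      (g 0).coeff 0 = 1 ∧ (∀ i, i ≠ 0 → (g i).coeff 0 = 0) ∧ (∃ i, i ≠ 0 ∧ g i ≠ 0) ∧
      ∀ j, MvPolynomial.aeval g (MvPolynomial.map (IsLocalRing.residue O) (G j)) = 0

/-! ### The free conic -/

variable {n c : ℕ}

/-- The degree of the `j`-th equation: the sum of the weights of the `j`-th group. -/
def dg (wt : Fin (n + 3) → ℕ) (π : Fin (n + 3) → Fin c) (j : Fin c) : ℕ :=
  ∑ i ∈ Finset.univ.filter (fun i => i ≠ 0 ∧ π i = j), wt i

/-- The sum of the weights which come before `i` in the group of `i`. -/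
def kap (wt : Fin (n + 3) → ℕ) (π : Fin (n + 3) → Fin c) (i : Fin (n + 3)) : ℕ :=
  ∑ i' ∈ Finset.univ.filter (fun i' => i' ≠ 0 ∧ π i' = π i ∧ i' < i), wt i'

/-- The special equations, which vanish on the conic `(1, t, t ^ 2, 0, .., 0)`. -/
noncomputable def G0 (R : Type u) [CommRing R] (wt : Fin (n + 3) → ℕ) (π : Fin (n + 3) → Fin c)
    (j : Fin c) : MvPolynomial (Fin (n + 3)) R :=
  (∑ i ∈ Finset.univ.filter (fun i : Fin (n + 3) => 3 ≤ i.val ∧ π i = j),
    MvPolynomial.X i * MvPolynomial.X 2 ^ kap wt π i *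
      MvPolynomial.X 0 ^ (dg wt π j - wt i - kap wt π i)) +
  if π 1 = j then
    (MvPolynomial.X 1 ^ 2 - MvPolynomial.X 0 * MvPolynomial.X 2) *
      MvPolynomial.X 0 ^ (dg wt π j - 2)
  else 0

/-- KAP. The elementary inequalities between the numbers `kap` and `dg`.
Proof: inclusions of finite sets, `Finset.sum_le_sum_of_subset`, `Finset.sum_pair`. -/
def Stmt_KAP : Prop :=
  ∀ (n c : ℕ) (wt : Fin (n + 3) → ℕ) (π : Fin (n + 3) → Fin c), wt 1 = 1 → wt 2 = 1 →
    π 1 = π 2 →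
    (∀ i : Fin (n + 3), 3 ≤ i.val → kap wt π i + wt i ≤ dg wt π (π i)) ∧
    (∀ i i' : Fin (n + 3), 3 ≤ i.val → i < i' → π i = π i' → kap wt π i + wt i ≤ kap wt π i') ∧
    (∀ i : Fin (n + 3), 3 ≤ i.val → π i = π 1 → 2 ≤ kap wt π i) ∧ 2 ≤ dg wt π (π 1)

/-- GHM (uses KAP). `G0` is weighted homogeneous.
Proof: `IsWeightedHomogeneous` of `X i`, products, powers, sums; the exponents add up by KAP
(`wt i + kap i + (dg - wt i - kap i) = dg`, `2 + (dg - 2) = dg`; `wt 0 = wt 1 = wt 2 = 1`). -/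
def Stmt_GHM : Prop :=
  ∀ (R : Type u) [CommRing R] (n c : ℕ) (wt : Fin (n + 3) → ℕ) (π : Fin (n + 3) → Fin c),
    wt 0 = 1 → wt 1 = 1 → wt 2 = 1 → π 1 = π 2 →
    ∀ j, (G0 R wt π j).IsWeightedHomogeneous wt (dg wt π j)

/-- The unknown coefficients. -/
abbrev UU (wt : Fin (n + 3) → ℕ) : Type :=
  Fin 4 ⊕ (Σ i : {i : Fin (n + 3) // 3 ≤ i.val}, Fin (2 * wt i))

/-- The equations. -/
abbrev VV (wt : Fin (n + 3) → ℕ) (π : Fin (n + 3) → Fin c) : Type :=
  Σ j : Fin c, Fin (2 * dg wt π j)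

/-- CRD. The count: `∑ j, dg j = ∑_{i ≠ 0} wt i = 2 + ∑_{i ≥ 3} wt i` (fiberwise sum). -/
def Stmt_CRD : Prop :=
  ∀ (n c : ℕ) (wt : Fin (n + 3) → ℕ) (π : Fin (n + 3) → Fin c), wt 1 = 1 → wt 2 = 1 →
    Fintype.card (VV wt π) ≤ Fintype.card (UU wt)

/-- The curve with coefficients `y`. -/
noncomputable def cv {A : Type*} [CommRing A] (wt : Fin (n + 3) → ℕ) (y : UU wt → A)
    (i : Fin (n + 3)) : A[X] :=
  if i = 0 then 1 + C (y (Sum.inl 0)) * X ^ 2
  else if i = 1 then X + C (y (Sum.inl 1)) * X ^ 2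
  else if i = 2 then C (y (Sum.inl 2)) * X + C (1 + y (Sum.inl 3)) * X ^ 2
  else if h : 3 ≤ i.val then
    ∑ l : Fin (2 * wt i), C (y (Sum.inr ⟨⟨i, h⟩, l⟩)) * X ^ ((l : ℕ) + 1)
  else 0

/-- The equations in the pencil: `(1 - s) * G0 + s * G`. -/
noncomputable def pen {R A : Type u} [CommRing R] [CommRing A] [Algebra R A]
    (wt : Fin (n + 3) → ℕ) (π : Fin (n + 3) → Fin c)
    (G : Fin c → MvPolynomial (Fin (n + 3)) R) (s : A) (j : Fin c) :
    MvPolynomial (Fin (n + 3)) A :=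
  MvPolynomial.C (1 - s) * G0 A wt π j +
    MvPolynomial.C s * MvPolynomial.map (algebraMap R A) (G j)

/-- CVF. Elementary facts on the curve `cv`: degrees, constant coefficients, functoriality.
Proof: case distinction on `i = 0, 1, 2` and `3 ≤ i`. -/
def Stmt_CVF : Prop :=
  ∀ (A B : Type u) [CommRing A] [CommRing B] (n : ℕ) (wt : Fin (n + 3) → ℕ) (y : UU wt → A),
    wt 0 = 1 → wt 1 = 1 → wt 2 = 1 →
    (∀ i, (cv wt y i).natDegree ≤ 2 * wt i) ∧ (cv wt y 0).coeff 0 = 1 ∧
    (∀ i, i ≠ 0 → (cv wt y i).coeff 0 = 0) ∧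
    ∀ (φ : A →+* B) (i : Fin (n + 3)), (cv wt y i).map φ = cv wt (fun a => φ (y a)) i

/-- PEF (uses GHM, CVF). Facts on the pencil along the curve: degree at most `2 dg j`, constant
coefficient zero if the `G j` vanish at `(1, 0, .., 0)`, functoriality.
Proof: `MP501976.aeval_natDegree_le_weighted` for the weights `2 wt` (the weighted total degree
for `2 wt` of a polynomial homogeneous of weight `d` for `wt` is at most `2 d`),
`MP501976.aeval_eval_zero` (`G0` vanishes at `(1, 0, .., 0)` by inspection),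
`MP501976.aeval_map` and `map φ (G0 A) = G0 B`. -/
def Stmt_PEF : Prop :=
  ∀ (R A : Type u) [Field R] [CommRing A] [Algebra R A] (n c : ℕ) (wt : Fin (n + 3) → ℕ)
    (π : Fin (n + 3) → Fin c), wt 0 = 1 → wt 1 = 1 → wt 2 = 1 → π 1 = π 2 →
    ∀ (G : Fin c → MvPolynomial (Fin (n + 3)) R),
    (∀ j, (G j).IsWeightedHomogeneous wt (dg wt π j)) →
    (∀ j, MvPolynomial.eval (Pi.single 0 1) (G j) = 0) →
    ∀ (s : A) (y : UU wt → A) (j : Fin c),
      (MvPolynomial.aeval (cv wt y) (pen wt π G s j)).natDegree ≤ 2 * dg wt π j ∧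
      (MvPolynomial.aeval (cv wt y) (pen wt π G s j)).coeff 0 = 0 ∧
      ∀ (B : Type u) [CommRing B] [Algebra R B] (φ : A →ₐ[R] B),
        (MvPolynomial.aeval (cv wt y) (pen wt π G s j)).map (φ : A →+* B) =
          MvPolynomial.aeval (cv wt fun a => φ (y a)) (pen wt π G (φ s) j)

/-- The equations for the generic curve. -/
noncomputable def EE (Ω : Type u) [Field Ω] (wt : Fin (n + 3) → ℕ) (π : Fin (n + 3) → Fin c)
    (G : Fin c → MvPolynomial (Fin (n + 3)) Ω) (v : VV wt π) :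
    MvPolynomial (Option (UU wt)) Ω :=
  (MvPolynomial.aeval (cv wt fun a => (MvPolynomial.X (some a) : MvPolynomial (Option (UU wt)) Ω))
    (pen wt π G (MvPolynomial.X none : MvPolynomial (Option (UU wt)) Ω) v.1)).coeff
      ((v.2 : ℕ) + 1)

/-- The linear form which is the coefficient of `X ^ (m + 1)` in the `j`-th special equation. -/
noncomputable def lin (Ω : Type u) [Field Ω] (wt : Fin (n + 3) → ℕ) (π : Fin (n + 3) → Fin c)
    (j : Fin c) (m : ℕ) : MvPolynomial (Option (UU wt)) Ω :=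
  (∑ a : (Σ i : {i : Fin (n + 3) // 3 ≤ i.val}, Fin (2 * wt i)),
    if π a.1.1 = j ∧ 2 * kap wt π a.1.1 + (a.2 : ℕ) = m then
      MvPolynomial.X (some (Sum.inr a)) else 0) +
  if π 1 = j then
    (if m = 0 then - MvPolynomial.X (some (Sum.inl 2)) else 0) +
    (if m = 1 then - MvPolynomial.X (some (Sum.inl 3)) else 0) +
    (if m = 2 then 2 * MvPolynomial.X (some (Sum.inl 1)) else 0) +
    (if m = 3 then - MvPolynomial.X (some (Sum.inl 0)) else 0)
  else 0

/-- LIN. The equations are congruent to the linear forms modulo `s` and the square of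
the ideal `m` of the origin.
Proof: modulo `s` the equation is the coefficient of `X ^ (m + 1)` of `aeval (cv ..) (G0 ..)`.
Write `f = cv ..`.  Coefficientwise: `f 2 ≡ X ^ 2` and `f 0 ≡ 1` modulo `m`, `f i ∈ m[X]` for
`i ≥ 3`, so `f i * f 2 ^ κ * f 0 ^ e ≡ f i * X ^ (2 κ)` modulo `m ^ 2`, with coefficient at
`X ^ (m + 1)` equal to `y (i, l)` if `2 κ + l = m`, `l < 2 wt i` (else zero).  And
`f 1 ^ 2 - f 0 * f 2 = - y2 X - y3 X ^ 2 + (2 y1 - y0 y2) X ^ 3 + (y1 ^ 2 - y0 (1 + y3)) X ^ 4`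
lies in `m[X]`, so its product with `f 0 ^ e` is congruent to it modulo `m ^ 2`.  (Work in
`(MvPolynomial .. ⧸ J)[X]`, `J = span {s} ⊔ m ^ 2`, or with `Ideal.map C` and
`Ideal.mem_map_C_iff`.) -/
def Stmt_LIN : Prop :=
  ∀ (Ω : Type u) [Field Ω] (n c : ℕ) (wt : Fin (n + 3) → ℕ) (π : Fin (n + 3) → Fin c)
    (G : Fin c → MvPolynomial (Fin (n + 3)) Ω) (v : VV wt π),
    EE Ω wt π G v - lin Ω wt π v.1 v.2 ∈
      Ideal.span {(MvPolynomial.X none : MvPolynomial (Option (UU wt)) Ω)} ⊔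
        orig Ω (Option (UU wt)) ^ 2

/-- WIN (uses KAP). Every unknown is, up to a nonzero factor, one of the linear forms.
Proof: for `a = inr ⟨i, l⟩` take `j = π i`, `m = 2 kap i + l < 2 dg j` (KAP): the only pair
`⟨i', l'⟩` with `π i' = j` and `2 kap i' + l' = m` is `⟨i, l⟩` (for `i < i'` one has
`2 kap i' ≥ 2 kap i + 2 wt i > m`, for `i' < i` one has `m ≥ 2 kap i ≥ 2 kap i' + 2 wt i'`), and
`m ≥ 4` if `j = π 1`.  For `a = inl 2, 3, 1, 0` take `j = π 1` and `m = 0, 1, 2, 3`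
(`4 ≤ 2 dg (π 1)`); no pair `⟨i', l'⟩` occurs since `2 kap i' ≥ 4`. -/
def Stmt_WIN : Prop :=
  ∀ (Ω : Type u) [Field Ω] [CharZero Ω] (n c : ℕ) (wt : Fin (n + 3) → ℕ)
    (π : Fin (n + 3) → Fin c), wt 1 = 1 → wt 2 = 1 → π 1 = π 2 → ∀ a : UU wt,
    ∃ (v : VV wt π) (u : Ω), u ≠ 0 ∧
      lin Ω wt π v.1 v.2 = MvPolynomial.C u * MvPolynomial.X (some a)

/-- EXI (uses GEN, CRD, CVF, PEF, LIN, WIN). The generic member of the pencil carries a conic
through `(1, 0, .., 0)`.
Proof: GEN for `E = EE Ω wt π G`: `card` by CRD; `EE v ∈ orig` since by LIN it is `lin` modulo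
`span {s} ⊔ orig ^ 2 ≤ orig` and `lin ∈ orig`; the condition on the variables by WIN and LIN.
For the solution `z` the curve `f = cv wt (fun a => z (some a))` with `s = z none` satisfies the
equations: by PEF (functoriality for `φ = aeval z`) the coefficients `1, .., 2 dg j` of
`aeval f (pen .. s j)` are `aeval z (EE ..) = 0`, the others vanish by PEF. -/
def Stmt_EXI : Prop :=
  ∀ (Ω : Type u) [Field Ω] [CharZero Ω] (n c : ℕ) (wt : Fin (n + 3) → ℕ)
    (π : Fin (n + 3) → Fin c), wt 0 = 1 → wt 1 = 1 → wt 2 = 1 → π 1 = π 2 →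
    ∀ (G : Fin c → MvPolynomial (Fin (n + 3)) Ω),
    (∀ j, (G j).IsWeightedHomogeneous wt (dg wt π j)) →
    (∀ j, MvPolynomial.eval (Pi.single 0 1) (G j) = 0) →
    ∃ (F : Type u) (_ : Field F) (_ : IsAlgClosed F) (_ : Algebra Ω F) (s : F)
      (y : UU wt → F), Transcendental Ω s ∧
      ∀ j, MvPolynomial.aeval (cv wt y) (pen wt π G s j) = 0

/-- CUR (uses GHM, VAL, CVF, EXI, SPC). Every member of the family carries a curve of degree two
through `(1, 0, .., 0)`.
Proof: EXI, then VAL for `s`: `O`.  The pencil is the image of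
`C (1 - s) * G0 O + C s * map (Ω → O) (G j)` over `O`, weighted homogeneous of degree `dg j`
(GHM); its reduction is the image of `G j` because the residue of `s` is one.  The residue field
contains `Ω`, so it has characteristic zero.  SPC applied to `f = cv wt y`
(`f 0 = 1 + C (y (inl 0)) * X ^ 2`, `f 1 ≠ 0` since its coefficient of `X` is one) gives `g` over
the residue field; map it to the algebraic closure `Ω'` of the residue field. -/
def Stmt_CUR : Prop :=
  ∀ (Ω : Type u) [Field Ω] [CharZero Ω] (n c : ℕ) (wt : Fin (n + 3) → ℕ)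
    (π : Fin (n + 3) → Fin c), wt 0 = 1 → wt 1 = 1 → wt 2 = 1 → π 1 = π 2 →
    ∀ (G : Fin c → MvPolynomial (Fin (n + 3)) Ω),
    (∀ j, (G j).IsWeightedHomogeneous wt (dg wt π j)) →
    (∀ j, MvPolynomial.eval (Pi.single 0 1) (G j) = 0) →
    ∃ (Ω' : Type u) (_ : Field Ω') (_ : IsAlgClosed Ω') (_ : Algebra Ω Ω')
      (g : Fin (n + 3) → Ω'[X]), (∀ i, (g i).natDegree ≤ 2 * wt i) ∧
      (g 0).coeff 0 = 1 ∧ (∀ i, i ≠ 0 → (g i).coeff 0 = 0) ∧ (∃ i, i ≠ 0 ∧ g i ≠ 0) ∧
      ∀ j, MvPolynomial.aeval g (MvPolynomial.map (algebraMap Ω Ω') (G j)) = 0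

/-- TRA (uses CUR). The same for an arbitrary point `p` with `p 0 ≠ 0`, and the curve is not
constant up to scaling.
Proof: apply CUR to `G' j = bind₁ T (G j)` with `T 0 = C (p 0) * X 0` and
`T i = C (p 0 ^ wt i) * X i + C (p i) * X 0 ^ wt i` for `i ≠ 0`: it is weighted homogeneous of
the same degree (`wt 0 = 1`), and vanishes at `(1, 0, .., 0)` because `T (1, 0, .., 0) = p`.
Put `f 0 = C (p 0) * g 0`, `f i = C (p 0 ^ wt i) * g i + C (p i) * g 0 ^ wt i` (images of the
`p i` in `Ω'`).  If `f i = C b * f 0 ^ wt i` for the `i ≠ 0` with `g i ≠ 0`, then `g i` is a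
constant times `g 0 ^ wt i`, and the constant coefficients `0` and `1` give `g i = 0`. -/
def Stmt_TRA : Prop :=
  ∀ (Ω : Type u) [Field Ω] [CharZero Ω] (n c : ℕ) (wt : Fin (n + 3) → ℕ)
    (π : Fin (n + 3) → Fin c), wt 0 = 1 → wt 1 = 1 → wt 2 = 1 → π 1 = π 2 →
    ∀ (G : Fin c → MvPolynomial (Fin (n + 3)) Ω),
    (∀ j, (G j).IsWeightedHomogeneous wt (dg wt π j)) → ∀ p : Fin (n + 3) → Ω, p 0 ≠ 0 →
    (∀ j, MvPolynomial.eval p (G j) = 0) →
    ∃ (Ω' : Type u) (_ : Field Ω') (_ : IsAlgClosed Ω') (_ : Algebra Ω Ω')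
      (f : Fin (n + 3) → Ω'[X]), (∀ i, (f i).natDegree ≤ 2 * wt i) ∧
      (∀ i, (f i).coeff 0 = algebraMap Ω Ω' (p i)) ∧
      (∃ i, ∀ b : Ω', f i ≠ C b * f 0 ^ wt i) ∧
      ∀ j, MvPolynomial.aeval f (MvPolynomial.map (algebraMap Ω Ω') (G j)) = 0

/-! ### The elliptic curves -/

/-- PAR. From a curve through the generic point to an elliptic curve over a finitely generated
field.
Proof: as `MP501976.kummer_param` (file `Pool/Agent/Work/MP_501976_ag_helper95/Main.lean`), with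
`s = 0`, `r = 1`, `e = q = 2` and the curve `f` given over `Ω`: `aeval f D` has degree at most
four (`MP501976.aeval_natDegree_le_weighted` for the weights `2 wt`) and constant coefficient
`D(x) ≠ 0`; so it is `C (D(x)) * ∏ (1 - C r * X)` over a multiset of four elements
(`MP501976.exists_factors`).  `K` is the subfield of `Ω` generated over `ℂ` by generators of `k`,
the coefficients of the `f i`, a square root `α` of `D(x)` and the four elements
(`Algebra ℂ Ω` through `L`).  `MP501976.exists_kummer` with `o = 2`, `d₁ = 4`, `d₂ = 0` gives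
`E, T, W`, and `MP501976.exists_embedding` (one generator `w`, `e = 2`, `β = α * W`) gives `φ`;
the conditions `h0`, `h1` as in `kummer_param` (`MP501976.exists_mul_pow_mem`). -/
def Stmt_PAR : Prop :=
  ∀ (L : Type u) [Field L] [Algebra ℂ L] (k : Type v) [Field k] [Algebra ℂ k] [Algebra k L]
    [IsScalarTower ℂ k L] [Algebra.EssFiniteType ℂ k] (N c : ℕ) (wt : Fin N → ℕ)
    (G : Fin c → MvPolynomial (Fin N) k) (x : Fin N → L),
    RingHom.ker (MvPolynomial.aeval x : MvPolynomial (Fin N) k →ₐ[k] L) ∈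
      (Ideal.span (Set.range G)).minimalPrimes →
    ∀ (D : MvPolynomial (Fin N) k), MvPolynomial.aeval x D ≠ 0 →
    MvPolynomial.weightedTotalDegree wt D ≤ 2 → ∀ w : L, w ^ 2 = MvPolynomial.aeval x D →
    IntermediateField.adjoin k (Set.range x ∪ {w}) = ⊤ →
    ∀ (Ω : Type u) [Field Ω] [IsAlgClosed Ω] [Algebra L Ω] (f : Fin N → Polynomial Ω),
    (∀ i, (f i).natDegree ≤ 2 * wt i) → (∀ i, (f i).coeff 0 = algebraMap L Ω (x i)) →
    (∀ j, MvPolynomial.aeval f
      (MvPolynomial.map ((algebraMap L Ω).comp (algebraMap k L)) (G j)) = 0) →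
    ∃ (K : Type u) (_ : Field K) (_ : Algebra ℂ K) (_ : Algebra.EssFiniteType ℂ K)
      (E : WeierstrassCurve.Affine K) (_ : E.IsElliptic) (φ : L →+* E.FunctionField)
      (T : E.FunctionField) (f' : Fin N → Polynomial K) (j : K →+* Ω),
      (∀ z : ℂ, φ (algebraMap ℂ L z) = algebraMap K E.FunctionField (algebraMap ℂ K z)) ∧
        Transcendental K T ∧ (∀ i, φ (x i) = Polynomial.aeval T (f' i)) ∧
        ∀ i, (f' i).map j = f i

/-- NCO. A quotient `f i (T) / f 0 (T) ^ m` which is algebraic over `K` is constant.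
Proof: let `K'` be the algebraic closure of `K` in `M`; `T` is transcendental over `K'`, so
`f₁ = C b * f₀ ^ m` over `K'`, `b` the quotient; the constant coefficients give `b ∈ K`
(`f₀.coeff 0 ≠ 0`), and the identity descends to `K`. -/
def Stmt_NCO : Prop :=
  ∀ (K M : Type u) [Field K] [Field M] [Algebra K M] (T : M) (f₀ f₁ : Polynomial K) (m : ℕ),
    Transcendental K T → f₀.coeff 0 ≠ 0 →
    IsAlgebraic K (Polynomial.aeval T f₁ / Polynomial.aeval T f₀ ^ m) →
    ∃ b : K, f₁ = C b * f₀ ^ m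

/-- FIN (uses TRA, PAR, NCO): the theorem.
Proof: TRA for `Ω` = algebraic closure of `L`, the images of the `G j` (weighted homogeneous) and
the point `x`; PAR for `Ω'`; if the image of `L₀` is contained in `K`, all `φ (x i / x 0 ^ wt i)`
are algebraic over `K` (as in `MP501976.kummer_cones`), so by NCO `f' i = C b * f' 0 ^ wt i` for
all `i`; mapping to `Ω'` contradicts TRA. -/
def Stmt_FIN : Prop :=
  ∀ (k : Type v) [Field k] [Algebra ℂ k] [Algebra.EssFiniteType ℂ k]
    (L : Type u) [Field L] [Algebra ℂ L] [Algebra k L] [IsScalarTower ℂ k L]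
    (n c : ℕ) (wt : Fin (n + 3) → ℕ), wt 0 = 1 → wt 1 = 1 → wt 2 = 1 →
    ∀ π : Fin (n + 3) → Fin c, π 1 = π 2 →
    ∀ (G : Fin c → MvPolynomial (Fin (n + 3)) k),
    (∀ j, (G j).IsWeightedHomogeneous wt (dg wt π j)) →
    ∀ x : Fin (n + 3) → L, x 0 ≠ 0 →
    RingHom.ker (MvPolynomial.aeval x : MvPolynomial (Fin (n + 3)) k →ₐ[k] L) ∈
      (Ideal.span (Set.range G)).minimalPrimes →
    ∀ D : MvPolynomial (Fin (n + 3)) k, MvPolynomial.weightedTotalDegree wt D ≤ 2 →
    MvPolynomial.aeval x D ≠ 0 → ∀ w : L, w ^ 2 = MvPolynomial.aeval x D →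
    IntermediateField.adjoin k (Set.range x ∪ {w}) = ⊤ →
    ∀ (L₀ : Type u) [Field L₀] [Algebra ℂ L₀] [Algebra L₀ L] [IsScalarTower ℂ L₀ L],
    (∀ i, IsAlgebraic L₀ (x i / x 0 ^ wt i)) → MP501976.SweptOutByEllipticCurves L₀

end IX1
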